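import Pool.Agent.H836R3.SE.Defs

/-! The steepest-edge path has at most `m ^ min n (m - n)` steps. -/

set_option autoImplicit false
set_option linter.unusedSectionVars false

namespace Pool.Y644.SE

open Pool.H836R3.SE

/-- At every vertex some `n` of the tight constraints determine the vertex. -/
theorem exists_basis {m n : ℕ} (A : Fin m → Fin n → ℝ) (b : Fin m → ℝ) (x : Fin n → ℝ)
    (hx : IsVertex A b x) : ∃ S : Finset (Fin m), S.card = n ∧ S ⊆ tightSet A b x ∧
      ∀ y, (∀ i ∈ S, dot (A i) y = 0) → y = 0 := by
  classical
  set T := tightSet A b x with hT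
  obtain ⟨κ, a, ha, hsp, hli⟩ := exists_linearIndependent' ℝ (fun i : T => A i.1)
  -- the span of the tight rows is everything
  have htop : Submodule.span ℝ (Set.range fun i : T => A i.1) = ⊤ := by
    by_contra hne
    obtain ⟨φ, hφ0, hφ⟩ := Submodule.exists_dual_map_eq_bot_of_lt_top (lt_top_iff_ne_top.2 hne)
      inferInstance
    let y : Fin n → ℝ := fun j => φ (Pi.single j 1)
    have hφy : ∀ u, φ u = dot u y := by
      intro u
      have : u = ∑ j, u j • (Pi.single j (1:ℝ) : Fin n → ℝ) := by
        ext k
        simp [Finset.sum_apply, Pi.single_apply]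
      conv_lhs => rw [this]
      rw [map_sum]
      simp [dot, y]
    have hy0 : y = 0 := by
      refine hx.2 y (fun i hi => ?_)
      rw [← hφy]
      have h1 : A i ∈ Submodule.span ℝ (Set.range fun i : T => A i.1) :=
        Submodule.subset_span ⟨⟨i, hi⟩, rfl⟩
      have h2 : φ (A i) ∈ (Submodule.span ℝ (Set.range fun i : T => A i.1)).map φ :=
        Submodule.mem_map_of_mem h1
      rw [hφ] at h2
      simpa using h2
    apply hφ0
    ext u
    simp [hφy, hy0, dot]
  have hspan : ⊤ ≤ Submodule.span ℝ (Set.range ((fun i : T => A i.1) ∘ a)) := by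
    rw [hsp, htop]
  have hfinκ : Finite κ := Finite.of_injective a ha
  have : Fintype κ := Fintype.ofFinite κ
  let B := Module.Basis.mk hli hspan
  have hcard : Fintype.card κ = n := by
    have := Module.finrank_eq_card_basis B
    simpa using this.symm
  refine ⟨Finset.univ.image (fun k => (a k).1), ?_, ?_, ?_⟩
  · have hinj : Function.Injective (fun k => (a k).1) := Subtype.val_injective.comp ha
    rw [Finset.card_image_of_injective _ hinj, Finset.card_univ, hcard]
  · intro i hi
    obtain ⟨k, -, rfl⟩ := Finset.mem_image.1 hi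
    exact (a k).2
  · intro y hy
    have h1 : ∀ u ∈ Submodule.span ℝ (Set.range ((fun i : T => A i.1) ∘ a)), dot u y = 0 := by
      intro u hu
      refine Submodule.span_induction (p := fun u _ => dot u y = 0) ?_ ?_ ?_ ?_ hu
      · rintro _ ⟨k, rfl⟩
        exact hy _ (Finset.mem_image.2 ⟨k, Finset.mem_univ _, rfl⟩)
      · simp [dot]
      · intro u v _ _ hu hv
        rw [add_dot, hu, hv, add_zero]
      · intro r u _ hu
        rw [smul_dot, hu, mul_zero]
    have h2 : dot y y = 0 := h1 y (hspan trivial)
    by_contra hne
    exact (dot_self_pos hne).ne' h2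

theorem hasPath_lt {m n : ℕ} (A : Fin m → Fin n → ℝ) (c z : Fin n → ℝ) (L : ℕ)
    (h : HasPath A (fun _ => 1) c z L) : L < m.choose n := by
  classical
  obtain ⟨v, h0, hs⟩ := h
  have hvert : ∀ i ≤ L, IsVertex A (fun _ => 1) (v i) := by
    intro i hi
    rcases Nat.eq_zero_or_pos i with h | h
    · subst h; exact h0.1
    · have := (hs (i - 1) (by omega)).1.2.1
      have e : i - 1 + 1 = i := by omega
      rwa [e] at this
  have hmono : ∀ i j, i < j → j ≤ L → dot c (v i) < dot c (v j) := by
    intro i j hij
    induction j, hij using Nat.le_induction with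
    | base =>
      intro hj
      have := (hs i (by omega)).2.1
      rw [dot_sub] at this
      linarith
    | succ k hk ih =>
      intro hj
      have h1 := ih (by omega)
      have := (hs k (by omega)).2.1
      rw [dot_sub] at this
      linarith
  have hinj : ∀ i j, i ≤ L → j ≤ L → v i = v j → i = j := by
    intro i j hi hj he
    rcases lt_trichotomy i j with h | h | h
    · have := hmono i j h hj
      rw [he] at this; exact absurd this (lt_irrefl _)
    · exact h
    · have := hmono j i h hi
      rw [he] at this; exact absurd this (lt_irrefl _)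
  have hS : ∀ i : Fin (L + 1), ∃ S : Finset (Fin m), S.card = n ∧
      S ⊆ tightSet A (fun _ => 1) (v i) ∧ ∀ y, (∀ i ∈ S, dot (A i) y = 0) → y = 0 :=
    fun i => exists_basis A _ _ (hvert i (by omega))
  choose S hS1 hS2 hS3 using hS
  have hSinj : Function.Injective S := by
    intro i j hij
    have h1 : v i - v j = 0 := by
      refine hS3 i _ (fun k hk => ?_)
      have a1 := hS2 i hk
      have a2 := hS2 j (hij ▸ hk)
      simp only [tightSet, Finset.mem_filter, Finset.mem_univ, true_and] at a1 a2
      rw [dot_sub, a1, a2, sub_self]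
    exact Fin.ext (hinj i j (by omega) (by omega) (sub_eq_zero.1 h1))
  have hcard : Fintype.card (Fin (L + 1)) ≤ (Finset.powersetCard n (Finset.univ :
      Finset (Fin m))).card := by
    rw [← Finset.card_univ (α := Fin (L + 1)), ← Finset.card_image_of_injective _ hSinj]
    apply Finset.card_le_card
    intro T hT
    obtain ⟨i, -, rfl⟩ := Finset.mem_image.1 hT
    rw [Finset.mem_powersetCard]
    exact ⟨Finset.subset_univ _, hS1 i⟩
  rw [Fintype.card_fin, Finset.card_powersetCard, Finset.card_univ, Fintype.card_fin] at hcard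
  omega

theorem choose_le_min (m n : ℕ) : m.choose n ≤ m ^ min n (m - n) := by
  rcases le_total n (m - n) with h | h
  · rw [min_eq_left h]; exact Nat.choose_le_pow m n
  · rw [min_eq_right h]
    rcases le_or_gt n m with h1 | h1
    · rw [← Nat.choose_symm h1]
      exact Nat.choose_le_pow m (m - n)
    · rw [Nat.choose_eq_zero_of_lt h1]; exact Nat.zero_le _

theorem pathLen_le {m n : ℕ} (A : Fin m → Fin n → ℝ) (c z : Fin n → ℝ) :
    pathLen A z c ≤ ((m ^ min n (m - n) : ℕ) : ℕ∞) := by
  unfold pathLen
  refine iSup₂_le (fun L hL => ?_)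
  have h1 := hasPath_lt A c z L hL
  have h2 := choose_le_min m n
  exact_mod_cast (h1.le.trans h2)

end Pool.Y644.SE
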