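import Pool.Agent.Y644.SE.Pad

/-! The shadow of the padded program has at most `n` vertices, and this is stable under
perturbations of polynomially small size. -/

set_option autoImplicit false
set_option linter.unusedSectionVars false
set_option linter.unusedSimpArgs false

namespace Pool.Y644.SE

open Pool.H836R3.SE

variable {J Z : Type} [Fintype J] [DecidableEq J] [Fintype Z] [DecidableEq Z]

theorem outer_pad (K : ℕ) (hK : 0 < K) {N' : Rx K J Z → Kx K J → ℝ} {b' : Rx K J Z → ℝ}
    {c' : Kx K J → ℝ} {ε : ℝ} (hε : 0 ≤ ε)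
    (hN : ∀ q l, |N' q l - Np K J Z q l| ≤ ε) (hb : ∀ q, |b' q - bp K J Z q| ≤ ε)
    (hc : ∀ l, |c' l - cp K J l| ≤ ε)
    (hsm : 10 ^ 7 * ((Fintype.card (Kx K J) : ℝ) ^ 6 * ε) ≤ 1)
    {E : Type} [AddCommGroup E] [Module ℝ E] (T : (Kx K J → ℝ) →ₗ[ℝ] E)
    (hT : ∀ u, dot (zp K J) u = 0 → dot c' u = 0 → T u = 0) (e0 : E) :
    ∃ G : Kx K J → E, (fun x => T x + e0) '' {t | Feas N' b' t} =
      convexHull ℝ (Set.range G) := by
  have hne : Nonempty (Kx K J) := ⟨Sum.inl (Sum.inr 0)⟩
  have bN := Np_bound (J := J) (Z := Z) K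
  have bbb : ∀ q, |bp K J Z q| ≤ 2 := fun q => by
    obtain ⟨h1, h2⟩ := bp_bound (J := J) (Z := Z) K q
    rw [abs_of_nonneg h1]; exact h2
  have hn1 : (1:ℝ) ≤ Fintype.card (Kx K J) := by exact_mod_cast Fintype.card_pos
  have hVm := VBase_pad (J := J) (Z := Z) K (vbase_m K) le_rfl le_rfl (by
    intro j hj
    exact absurd (Prod.ext_iff.1 hj).2 (by simp))
  obtain ⟨d, V, hE, hd0, hV0⟩ := robust_vertex hVm hne le_rfl one_pos le_rfl bN bbb hε hN hb
    (by rw [one_pow, mul_one]; nlinarith)
  rw [one_pow, mul_one] at hd0 hV0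
  have hdp0 : ∀ j l : Kx K J, dp K J (fun j l => if l = j then 1 else 0) j l =
      if l = j then 1 else 0 := by
    intro j l
    rcases j with j | j
    · rcases l with l | l
      · simp [dp, tp]
      · simp [dp, tp]
    · rfl
  have hd : ∀ j l, |d j l - (if l = j then 1 else 0)| ≤
      2 * ((Fintype.card (Kx K J) : ℝ) ^ 3 * ε) := by
    intro j l
    have := hd0 j l
    rw [hdp0] at this
    exact this
  have hV : ∀ l, |V l| ≤ 7 * ((Fintype.card (Kx K J) : ℝ) ^ 4 * ε) := by
    intro l
    have := hV0 l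
    have e : tp K J (0 : Ix K → ℝ) l = 0 := by
      rcases l with l | l
      · simp [tp]
      · simp [tp]
    rw [e, sub_zero] at this
    exact this
  set n : ℝ := (Fintype.card (Kx K J) : ℝ) with hn
  have hpw : ∀ a : ℕ, a ≤ 6 → n ^ a * ε ≤ 1 / 10 ^ 7 := by
    intro a ha
    have h1 := pow_le_pow_right₀ hn1 ha
    have : n ^ a * ε ≤ n ^ 6 * ε := by gcongr
    linarith
  have p0 := hpw 0 (by norm_num)
  have p1 := hpw 1 (by norm_num)
  have p3 := hpw 3 (by norm_num)
  have p4 := hpw 4 (by norm_num)
  have p5 := hpw 5 (by norm_num)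
  rw [pow_zero, one_mul] at p0
  rw [pow_one] at p1
  have hdb : ∀ j l, |d j l| ≤ 2 := by
    intro j l
    have h1 := hd j l
    have h2 : |(if l = j then (1:ℝ) else 0)| ≤ 1 := by split_ifs <;> simp
    have : d j l = (d j l - if l = j then 1 else 0) + (if l = j then 1 else 0) := by ring
    rw [this]
    refine (abs_add_le _ _).trans ?_
    linarith
  have est : ∀ (u u' : Kx K J → ℝ), (∀ l, |u l| ≤ 10) → (∀ l, |u' l - u l| ≤ ε) →
      ∀ j, |dot u' (d j) - u j| ≤ 1 / 10 ^ 5 := by
    intro u u' hu hu' j
    have e1 : dot u' (d j) - u j = dot (fun l => u' l - u l) (d j) +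
        dot u (fun l => d j l - if l = j then 1 else 0) := by
      have a1 : dot (fun l => u' l - u l) (d j) = dot u' (d j) - dot u (d j) := by
        rw [← sub_dot]; rfl
      have a2 : dot u (fun l => d j l - if l = j then 1 else 0) =
          dot u (d j) - dot u (fun l => if l = j then 1 else 0) := by
        rw [← dot_sub]; rfl
      have a3 : dot u (fun l => if l = j then (1:ℝ) else 0) = u j := by
        rw [dot_comm, dot_single]; ring
      rw [a1, a2, a3]; ring
    rw [e1]
    have b1 := abs_dot_le (fun l => u' l - u l) (d j) ε 2 hu' (hdb j)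
    have b2 := abs_dot_le u (fun l => d j l - if l = j then 1 else 0) 10 _ hu (fun l => hd j l)
    rw [← hn] at b1 b2
    refine (abs_add_le _ _).trans ?_
    have e2 : n * (ε * 2) = 2 * (n * ε) := by ring
    have e3 : n * (10 * (2 * (n ^ 3 * ε))) = 20 * (n ^ 4 * ε) := by ring
    rw [e2] at b1
    rw [e3] at b2
    linarith
  have estV : ∀ (u' : Kx K J → ℝ), (∀ l, |u' l| ≤ 11) → |dot u' V| ≤ 1 / 10 ^ 5 := by
    intro u' hu'
    have b1 := abs_dot_le u' V 11 (7 * (n ^ 4 * ε)) hu' hV
    rw [← hn] at b1
    have e3 : n * (11 * (7 * (n ^ 4 * ε))) = 77 * (n ^ 5 * ε) := by ring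
    rw [e3] at b1
    linarith
  have hNb : ∀ q l, |N' q l| ≤ 11 := by
    intro q l
    have : N' q l = Np K J Z q l + (N' q l - Np K J Z q l) := by ring
    rw [this]
    refine (abs_add_le _ _).trans ?_
    have := bN q l; have := hN q l
    linarith
  set far : Rx K J Z := Sum.inl (Sum.inr 3, true) with hfar
  have hNfar : ∀ l, Np K J Z far (Sum.inl l) = farRow K l := by
    intro l
    simp [hfar, Np, NN]
  have hNfar' : ∀ j, Np K J Z far (Sum.inr j) = 1 / 2 := by
    intro j
    simp [hfar, Np]
  have hbfar : bp K J Z far = 1 := by simp [hfar, bp, bb, kw_three]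
  set F : ℝ := b' far - dot (N' far) V with hF
  have hF1 : |F - 1| ≤ 2 / 10 ^ 5 := by
    have h1 := hb far
    rw [hbfar] at h1
    have h2 := estV (N' far) (hNb far)
    have : F - 1 = (b' far - 1) - dot (N' far) V := by rw [hF]; ring
    rw [this]
    refine (abs_sub _ _).trans ?_
    linarith
  obtain ⟨hFl, hFu⟩ := abs_le.1 hF1
  set f : Kx K J → ℝ := fun j => dot (N' far) (d j) with hf
  have hfe : ∀ j, |f j - Np K J Z far j| ≤ 1 / 10 ^ 5 := by
    intro j
    exact est (Np K J Z far) (N' far) (fun l => (bN far l).trans (by norm_num)) (hN far) j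
  have hfarlow : ∀ j, (1:ℝ) / 32 ≤ Np K J Z far j := by
    intro j
    rcases j with j | j
    · rw [hNfar]; unfold farRow; split_ifs <;> norm_num
    · rw [hNfar']; norm_num
  have hfarhalf : ∀ j, j ≠ Sum.inl (Sum.inr 3) → Np K J Z far j = 1 / 2 := by
    intro j hj
    rcases j with j | j
    · rw [hNfar]; unfold farRow
      rw [if_neg (fun e => hj (by rw [e]))]
    · rw [hNfar']
  have hfpos : ∀ j, 0 < f j := by
    intro j
    have h1 := (abs_le.1 (hfe j)).1
    have := hfarlow j
    linarith
  have hFpos : 0 < F := by linarith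
  set p : Kx K J → Kx K J → ℝ := fun j => V + (F / f j) • d j with hp
  have hpV : ∀ j, p j - V = (F / f j) • d j := fun j => by rw [hp]; simp
  -- values
  have z1 := est (zp K J) (zp K J) (fun l => (zp_bound K l).2) (fun l => by simpa using hε)
  have c1 := est (cp K J) c' (fun l => (cp_bound K l).trans (by norm_num)) hc
  set ξ : Kx K J := Sum.inl (Sum.inr 0) with hξ
  set a : Kx K J := Sum.inl (Sum.inr 3) with ha
  set xb : Kx K J := Sum.inl (Sum.inl (⟨0, hK⟩, true)) with hxb
  have vz0 : zp K J ξ = -10 := by simp [hξ, zp, zc]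
  have vz3 : zp K J a = -2 := by simp [ha, zp, zc]
  have vzx : zp K J xb = -3 := by simp [hxb, zp, zc]
  have vc0 : cp K J ξ = 4 := by simp [hξ, cp, cc, cw]
  have vc3 : cp K J a = 1 := by simp [ha, cp, cc, cw]
  have vcx : cp K J xb = -(1 / 2) := by simp [hxb, cp, cc, g, lam]
  have vf0 : Np K J Z far ξ = 1 / 2 := by rw [hξ, hNfar]; simp [farRow]
  have vf3 : Np K J Z far a = 1 / 32 := by rw [ha, hNfar]; simp [farRow]
  have vfx : Np K J Z far xb = 1 / 2 := by rw [hxb, hNfar]; simp [farRow]
  have zz0 := z1 ξ; rw [vz0] at zz0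
  have zz3 := z1 a; rw [vz3] at zz3
  have zzx := z1 xb; rw [vzx] at zzx
  have cc0 := c1 ξ; rw [vc0] at cc0
  have cc3 := c1 a; rw [vc3] at cc3
  have ccx := c1 xb; rw [vcx] at ccx
  have ff0 := hfe ξ; rw [vf0] at ff0
  have ff3 := hfe a; rw [vf3] at ff3
  have ffx := hfe xb; rw [vfx] at ffx
  rw [abs_le] at zz0 zz3 zzx cc0 cc3 ccx ff0 ff3 ffx
  obtain ⟨al', be', hal0, hal1, hbe0, hbe1, hzeq, hceq⟩ : ∃ al' be' : ℝ, 0 ≤ al' ∧ al' ≤ 43 / 10 ∧
      0 ≤ be' ∧ be' ≤ 51 / 100 ∧
      dot (zp K J) (d ξ) = al' * dot (zp K J) (d a) + be' * dot (zp K J) (d xb) ∧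
      dot c' (d ξ) = al' * dot c' (d a) + be' * dot c' (d xb) := by
    set A1 := dot (zp K J) (d ξ)
    set A2 := dot (zp K J) (d a)
    set A3 := dot (zp K J) (d xb)
    set B1 := dot c' (d ξ)
    set B2 := dot c' (d a)
    set B3 := dot c' (d xb)
    have q1 := prod_err (-2) (-(1 / 2)) zz3 ccx (by norm_num [abs_of_pos]) (by norm_num [abs_of_pos])
    have q2 := prod_err (-3) 1 zzx cc3 (by norm_num [abs_of_pos]) (by norm_num [abs_of_pos])
    have q3 := prod_err (-10) (-(1 / 2)) zz0 ccx (by norm_num [abs_of_pos]) (by norm_num [abs_of_pos])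
    have q4 := prod_err (-3) 4 zzx cc0 (by norm_num [abs_of_pos]) (by norm_num [abs_of_pos])
    have q5 := prod_err (-2) 4 zz3 cc0 (by norm_num [abs_of_pos]) (by norm_num [abs_of_pos])
    have q6 := prod_err (-10) 1 zz0 cc3 (by norm_num [abs_of_pos]) (by norm_num [abs_of_pos])
    rw [abs_le] at q1 q2 q3 q4 q5 q6
    set Δ := A2 * B3 - A3 * B2 with hΔ
    have hΔl : 399 / 100 ≤ Δ := by linarith
    have hΔ0 : Δ ≠ 0 := by linarith
    have hΔp : 0 < Δ := by linarith
    refine ⟨(A1 * B3 - A3 * B1) / Δ, (A2 * B1 - A1 * B2) / Δ, ?_, ?_, ?_, ?_, ?_, ?_⟩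
    · apply div_nonneg <;> linarith
    · rw [div_le_iff₀ hΔp]; linarith
    · apply div_nonneg <;> linarith
    · rw [div_le_iff₀ hΔp]; linarith
    · field_simp; rw [hΔ]; ring
    · field_simp; rw [hΔ]; ring
  have hT1 : T (d ξ) = al' • T (d a) + be' • T (d xb) := by
    have h1 := hT (d ξ - (al' • d a + be' • d xb)) (by
      rw [dot_sub, dot_add, dot_smul, dot_smul, hzeq]; ring) (by
      rw [dot_sub, dot_add, dot_smul, dot_smul, hceq]; ring)
    rw [map_sub, map_add, map_smul, map_smul] at h1
    exact sub_eq_zero.1 h1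
  have hfξ := hfpos ξ
  have hfa := hfpos a
  have hfx := hfpos xb
  -- rows tight at `V`
  have htgt : ∀ i : Kx K J, ∀ q, q = tfp K J Z (fun j => (j, false)) i →
      dot (N' q) V = b' q ∧ ∀ j, dot (N' q) (d j) = if i = j then -1 else 0 := by
    rintro i q rfl
    exact ⟨hE.tgt i, hE.dir i⟩
  refine image_hull T e0 _ (convex_feas N' b') V p ξ ?_ hE.feas ?_ a xb (by simp [ha, hξ])
    (by simp [hxb, hξ]) (al' * (f a / f ξ)) (be' * (f xb / f ξ)) (by positivity) (by positivity)
    ?_ ?_
  · intro x hx
    have hdec := hE.decomp x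
    refine ⟨fun j => (b' (tfp K J Z (fun j => (j, false)) j) -
      dot (N' (tfp K J Z (fun j => (j, false)) j)) x) * (f j / F), ?_, ?_, ?_⟩
    · intro j
      have h1 : 0 ≤ b' (tfp K J Z (fun j => (j, false)) j) -
        dot (N' (tfp K J Z (fun j => (j, false)) j)) x := sub_nonneg.2 (hx _)
      have := hfpos j
      positivity
    · have h1 : dot (N' far) (x - V) = ∑ j, (b' (tfp K J Z (fun j => (j, false)) j) -
          dot (N' (tfp K J Z (fun j => (j, false)) j)) x) * f j := by
        rw [hdec, dot_sum]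
        exact Finset.sum_congr rfl (fun j _ => by rw [dot_smul])
      have h2 : ∑ j, (b' (tfp K J Z (fun j => (j, false)) j) -
          dot (N' (tfp K J Z (fun j => (j, false)) j)) x) * (f j / F) =
          (∑ j, (b' (tfp K J Z (fun j => (j, false)) j) -
            dot (N' (tfp K J Z (fun j => (j, false)) j)) x) * f j) / F := by
        rw [Finset.sum_div]
        exact Finset.sum_congr rfl (fun j _ => by ring)
      rw [h2, ← h1, dot_sub, div_le_one hFpos]
      have := hx far
      linarith
    · rw [hdec]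
      refine Finset.sum_congr rfl (fun j _ => ?_)
      rw [hpV, smul_smul]
      congr 1
      have := (hfpos j).ne'
      field_simp
  · intro j hj q
    have hpq : dot (N' q) (p j) = dot (N' q) V + F / f j * dot (N' q) (d j) := by
      rw [hp]; simp only; rw [dot_add, dot_smul]
    rw [hpq]
    have hFf : 0 < F / f j := div_pos hFpos (hfpos j)
    have tightcase : ∀ i : Kx K J, q = tfp K J Z (fun j => (j, false)) i →
        dot (N' q) V + F / f j * dot (N' q) (d j) ≤ b' q := by
      intro i hi
      obtain ⟨h1, h2⟩ := htgt i q hi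
      rw [h1, h2 j]
      split_ifs
      · linarith
      · simp
    have h5a : F / f j ≤ 33 := by
      rw [div_le_iff₀ (hfpos j)]
      have h1 := (abs_le.1 (hfe j)).1
      have h2 := hfarlow j
      linarith
    rcases q with ⟨i, bo⟩ | i | zz
    · cases bo with
      | false => exact tightcase (Sum.inl i) rfl
      | true =>
        by_cases hi : i = Sum.inr 3
        · subst hi
          show dot (N' far) V + F / f j * f j ≤ b' far
          rw [div_mul_cancel₀ _ (hfpos j).ne', hF]; linarith
        · obtain ⟨-, hs⟩ := NN_up K i hi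
          have h1 := (abs_le.1 (estV (N' (Sum.inl (i, true))) (hNb _))).2
          have h2 := (abs_le.1 (est (Np K J Z (Sum.inl (i, true))) (N' (Sum.inl (i, true)))
            (fun l => (bN _ l).trans (by norm_num)) (hN _) j)).2
          have h3 := (abs_le.1 (hb (Sum.inl (i, true)))).1
          have h4 : 1 ≤ bp K J Z (Sum.inl (i, true)) := bb_true_ge K i
          by_cases hj3 : j = Sum.inl (Sum.inr 3)
          · have h0 : Np K J Z (Sum.inl (i, true)) j = 0 := by
              rw [hj3]
              show NN K (i, true) (Sum.inr 3) = 0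
              rcases i with q | a'
              · simp [NN, upRow, hvec]
              · have ha' : a' ≠ 3 := fun e => hi (by rw [e])
                simp only [NN, ha', if_false, upRow, hvec]
                have : (3 : Fin 4) ≠ a' := fun e => ha' e.symm
                simp [this]
            rw [h0] at h2
            have h6 : F / f j * dot (N' (Sum.inl (i, true))) (d j) ≤ 33 * (1 / 10 ^ 5) := by
              have : F / f j * dot (N' (Sum.inl (i, true))) (d j) ≤ F / f j * (1 / 10 ^ 5) := by
                apply mul_le_mul_of_nonneg_left _ hFf.le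
                linarith
              refine this.trans ?_
              gcongr
            linarith
          · have h0 : Np K J Z (Sum.inl (i, true)) j ≤ 1 / 6 := by
              rcases j with j | j
              · exact (abs_le.1 (hs j (fun e => hj (by rw [e])))).2
              · have : ¬ ((i, true) = ((Sum.inr 3, true) : Ix K × Bool)) := fun e =>
                  hi (Prod.ext_iff.1 e).1
                simp only [Np, this, if_false]; norm_num
            have hfj : 49 / 100 ≤ f j := by
              have h1 := (abs_le.1 (hfe j)).1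
              rw [hfarhalf j hj3] at h1; linarith
            have h5 : F / f j ≤ 3 := by
              rw [div_le_iff₀ (hfpos j)]
              linarith
            have h6 : F / f j * dot (N' (Sum.inl (i, true))) (d j) ≤ 3 * (1 / 5) := by
              have : F / f j * dot (N' (Sum.inl (i, true))) (d j) ≤ F / f j * (1 / 5) := by
                apply mul_le_mul_of_nonneg_left _ hFf.le
                linarith
              refine this.trans ?_
              gcongr
            linarith
    · exact tightcase (Sum.inr i) rfl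
    · have h1 := (abs_le.1 (estV (N' (Sum.inr (Sum.inr zz))) (hNb _))).2
      have h2 := (abs_le.1 (est (Np K J Z (Sum.inr (Sum.inr zz))) (N' (Sum.inr (Sum.inr zz)))
        (fun l => (bN _ l).trans (by norm_num)) (hN _) j)).2
      have h3 := (abs_le.1 (hb (Sum.inr (Sum.inr zz)))).1
      have h4 : bp K J Z (Sum.inr (Sum.inr zz)) = 1 := rfl
      have h0 : Np K J Z (Sum.inr (Sum.inr zz)) j = 0 := rfl
      rw [h0] at h2
      rw [h4] at h3
      have h6 : F / f j * dot (N' (Sum.inr (Sum.inr zz))) (d j) ≤ 33 * (1 / 10 ^ 5) := by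
        have : F / f j * dot (N' (Sum.inr (Sum.inr zz))) (d j) ≤ F / f j * (1 / 10 ^ 5) := by
          apply mul_le_mul_of_nonneg_left _ hFf.le
          linarith
        refine this.trans ?_
        gcongr
      linarith
  · have r1 : f a / f ξ ≤ 7 / 100 := by
      rw [div_le_iff₀ hfξ]; linarith
    have r2 : f xb / f ξ ≤ 101 / 100 := by
      rw [div_le_iff₀ hfξ]; linarith
    have r3 : al' * (f a / f ξ) ≤ 43 / 10 * (7 / 100) := by gcongr
    have r4 : be' * (f xb / f ξ) ≤ 51 / 100 * (101 / 100) := by gcongr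
    linarith
  · rw [hpV, hpV, hpV, map_smul, map_smul, map_smul, hT1, smul_add, smul_smul, smul_smul,
      smul_smul, smul_smul]
    congr 2
    · field_simp
    · field_simp

end Pool.Y644.SE
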