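import Pool.Agent.Y644.SE.Path
import Pool.Agent.Y644.SE.OuterP
import Pool.Agent.H836R3.SE.Reindex

/-! The padded linear program in the normalised form `A x ≤ 1` with Frobenius norm at most one. -/

set_option autoImplicit false
set_option linter.unusedSectionVars false
set_option linter.unusedSimpArgs false

namespace Pool.Y644.SE

open Pool.H836R3.SE

variable {J Z : Type} [Fintype J] [DecidableEq J] [Fintype Z] [DecidableEq Z]

noncomputable def np (K : ℕ) (J : Type) [Fintype J] : ℝ := (Fintype.card (Kx K J) : ℝ)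
noncomputable def op (K : ℕ) (J : Type) [Fintype J] : Kx K J → ℝ := fun _ => 1 / (4 * np K J)
noncomputable def wp (K : ℕ) (J Z : Type) [Fintype J] [DecidableEq J] (q : Rx K J Z) : ℝ :=
  bp K J Z q - dot (Np K J Z q) (op K J)
noncomputable def Asp (K : ℕ) (J Z : Type) [Fintype J] [DecidableEq J] (q : Rx K J Z)
    (l : Kx K J) : ℝ :=
  Np K J Z q l / (wp K J Z q * (10 * np K J ^ 2))
noncomputable def csp (K : ℕ) (J : Type) [Fintype J] (l : Kx K J) : ℝ :=
  cp K J l / (10 * np K J)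

theorem np_eq (K : ℕ) : np K J = 2 * K + 4 + Fintype.card J := by
  unfold np Kx
  rw [Fintype.card_sum, card_Ix]; push_cast; ring

theorem np_ge (K : ℕ) : 4 ≤ np K J := by
  rw [np_eq]
  have : (0:ℝ) ≤ K := Nat.cast_nonneg K
  have : (0:ℝ) ≤ Fintype.card J := Nat.cast_nonneg _
  linarith

theorem wp_bound (K : ℕ) (q : Rx K J Z) :
    1 / (4 * np K J) ≤ wp K J Z q ∧ wp K J Z q ≤ 3 := by
  have hn := np_ge (J := J) K
  have h4 : 1 / (4 * np K J) ≤ 1 / 16 := by
    apply one_div_le_one_div_of_le (by norm_num); linarith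
  have h40 : 0 < 1 / (4 * np K J) := by positivity
  have h0 : ∀ q : Rx K J Z, ∀ i : Kx K J, (∀ l, Np K J Z q l = if l = i then -1 else 0) →
      dot (Np K J Z q) (op K J) = -(1 / (4 * np K J)) := by
    intro q i hq
    have : Np K J Z q = fun l => if l = i then (-1:ℝ) else 0 := funext hq
    rw [this, dot_single]
    simp [op]
  rcases q with ⟨j, b⟩ | j | z
  · cases b with
    | false =>
      unfold wp
      rw [h0 _ (Sum.inl j) (by
        intro l
        rcases l with l | l
        · have : NN K (j, false) = fun l => if l = j then (-1:ℝ) else 0 := by cases j <;> rfl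
          simp [Np, this]
        · simp [Np])]
      have : bp K J Z (Sum.inl (j, false)) = 0 := by simp [bp, bb]
      rw [this]
      constructor <;> linarith
    | true =>
      unfold wp
      have h1 := abs_dot_le (Np K J Z (Sum.inl (j, true))) (op K J) 1 (1 / (4 * np K J))
        (Np_bound K _) (fun l => by unfold op; rw [abs_of_pos h40])
      have h2 : (Fintype.card (Kx K J) : ℝ) * (1 * (1 / (4 * np K J))) = 1 / 4 := by
        show np K J * (1 * (1 / (4 * np K J))) = 1 / 4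
        field_simp
      rw [h2] at h1
      obtain ⟨h3, h5⟩ := abs_le.1 h1
      have h6 : 1 ≤ bp K J Z (Sum.inl (j, true)) := bb_true_ge K j
      have h7 := (bp_bound (J := J) (Z := Z) K (Sum.inl (j, true))).2
      constructor <;> linarith
  · unfold wp
    rw [h0 _ (Sum.inr j) (by intro l; simp [Np])]
    have : bp K J Z (Sum.inr (Sum.inl j)) = 0 := rfl
    rw [this]
    constructor <;> linarith
  · unfold wp
    have h1 : dot (Np K J Z (Sum.inr (Sum.inr z))) (op K J) = 0 := by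
      simp [dot, Np]
    have : bp K J Z (Sum.inr (Sum.inr z)) = 1 := rfl
    rw [this, h1]
    constructor <;> linarith

theorem wp_pos (K : ℕ) (q : Rx K J Z) : 0 < wp K J Z q := by
  have hn := np_ge (J := J) K
  have := (wp_bound K q).1
  have : 0 < 1 / (4 * np K J) := by positivity
  linarith

theorem Asp_bound (K : ℕ) (q : Rx K J Z) (l : Kx K J) : |Asp K J Z q l| ≤ 2 / (5 * np K J) := by
  have hn := np_ge (J := J) K
  have hw := wp_pos K q
  have hw1 := (wp_bound K q).1
  unfold Asp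
  rw [abs_div, abs_of_pos (by positivity : 0 < wp K J Z q * (10 * np K J ^ 2)),
    div_le_div_iff₀ (by positivity) (by positivity)]
  have h1 := Np_bound K q l
  have h2 : 1 / (4 * np K J) * (10 * np K J ^ 2) ≤ wp K J Z q * (10 * np K J ^ 2) := by gcongr
  have h3 : 1 / (4 * np K J) * (10 * np K J ^ 2) = 5 / 2 * np K J := by field_simp; norm_num
  rw [h3] at h2
  calc |Np K J Z q l| * (5 * np K J) ≤ 1 * (5 * np K J) := by gcongr
    _ ≤ 2 * (wp K J Z q * (10 * np K J ^ 2)) := by linarith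

theorem csp_bound (K : ℕ) (l : Kx K J) : |csp K J l| ≤ 2 / (5 * np K J) := by
  have hn := np_ge (J := J) K
  unfold csp
  rw [abs_div, abs_of_pos (by positivity : 0 < 10 * np K J),
    div_le_div_iff₀ (by positivity) (by positivity)]
  have := cp_bound K l
  nlinarith

theorem frobp (K : ℕ) : ∑ q, ∑ l, Asp K J Z q l ^ 2 + ∑ l, csp K J l ^ 2 ≤ 1 := by
  have hn := np_ge (J := J) K
  have h1 : ∀ q l, Asp K J Z q l ^ 2 ≤ 4 / (25 * np K J ^ 2) := by
    intro q l
    rw [← sq_abs]
    have := pow_le_pow_left₀ (abs_nonneg _) (Asp_bound K q l) 2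
    refine this.trans (le_of_eq ?_)
    field_simp; norm_num
  have h2 : ∀ l, csp K J l ^ 2 ≤ 4 / (25 * np K J ^ 2) := by
    intro l
    rw [← sq_abs]
    have := pow_le_pow_left₀ (abs_nonneg _) (csp_bound K l) 2
    refine this.trans (le_of_eq ?_)
    field_simp; norm_num
  have h5 : ∑ l : Kx K J, 4 / (25 * np K J ^ 2) = 4 / (25 * np K J) := by
    rw [Finset.sum_const, Finset.card_univ, nsmul_eq_mul]
    show np K J * (4 / (25 * np K J ^ 2)) = _
    field_simp
  have hrow : ∀ q, ∑ l, Asp K J Z q l ^ 2 ≤ 4 / (25 * np K J) := by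
    intro q
    rw [← h5]
    exact Finset.sum_le_sum (fun l _ => h1 q l)
  have h4 : ∑ l, csp K J l ^ 2 ≤ 4 / (25 * np K J) := by
    rw [← h5]
    exact Finset.sum_le_sum (fun l _ => h2 l)
  have h3 : ∑ q, ∑ l, Asp K J Z q l ^ 2 ≤ 2 * np K J * (4 / (25 * np K J)) := by
    rw [Fintype.sum_sum_type, Fintype.sum_sum_type]
    have a1 : ∑ q : Ix K × Bool, ∑ l, Asp K J Z (Sum.inl q) l ^ 2 ≤
        (2 * (2 * (K:ℝ) + 4)) * (4 / (25 * np K J)) := by
      refine (Finset.sum_le_card_nsmul _ _ _ (fun q _ => hrow (Sum.inl q))).trans ?_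
      rw [nsmul_eq_mul, Finset.card_univ, Fintype.card_prod, card_Ix, Fintype.card_bool]
      push_cast
      exact le_of_eq (by ring)
    have a2 : ∑ j : J, ∑ l, Asp K J Z (Sum.inr (Sum.inl j)) l ^ 2 ≤
        (Fintype.card J : ℝ) * (4 / (25 * np K J)) := by
      refine (Finset.sum_le_card_nsmul _ _ _ (fun q _ => hrow (Sum.inr (Sum.inl q)))).trans ?_
      rw [nsmul_eq_mul, Finset.card_univ]
    have a3 : ∑ z : Z, ∑ l, Asp K J Z (Sum.inr (Sum.inr z)) l ^ 2 = 0 := by
      refine Finset.sum_eq_zero (fun z _ => Finset.sum_eq_zero (fun l _ => ?_))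
      simp [Asp, Np]
    rw [a3, add_zero]
    refine (add_le_add a1 a2).trans ?_
    rw [← add_mul]
    apply mul_le_mul_of_nonneg_right _ (by positivity)
    rw [np_eq]
    have : (0:ℝ) ≤ Fintype.card J := Nat.cast_nonneg _
    linarith
  have h6 : 2 * np K J * (4 / (25 * np K J)) = 8 / 25 := by
    field_simp; norm_num
  rw [h6] at h3
  have : 4 / (25 * np K J) ≤ 4 / 25 := by
    apply div_le_div_of_nonneg_left <;> linarith
  linarith

/-- closeness of the transformed data -/
theorem close_pad (K : ℕ) (A : Rx K J Z → Kx K J → ℝ) (c : Kx K J → ℝ) (δ : ℝ) (hδ : 0 ≤ δ)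
    (hA : ∀ q l, |A q l - Asp K J Z q l| ≤ δ) (hc : ∀ l, |c l - csp K J l| ≤ δ) :
    (∀ q l, |NA A (10 * np K J ^ 2) (wp K J Z) q l - Np K J Z q l| ≤ 30 * np K J ^ 2 * δ) ∧
    (∀ q, |bA A (10 * np K J ^ 2) (wp K J Z) (op K J) q - bp K J Z q| ≤
      30 * np K J ^ 2 * δ) ∧
    (∀ l, |((10 * np K J) • c) l - cp K J l| ≤ 30 * np K J ^ 2 * δ) := by
  have hn := np_ge (J := J) K
  have h1 : ∀ q l, |NA A (10 * np K J ^ 2) (wp K J Z) q l - Np K J Z q l| ≤
      30 * np K J ^ 2 * δ := by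
    intro q l
    have hw := wp_pos K q
    have e1 : NA A (10 * np K J ^ 2) (wp K J Z) q l - Np K J Z q l =
        (wp K J Z q * (10 * np K J ^ 2)) * (A q l - Asp K J Z q l) := by
      unfold NA Asp; field_simp
    rw [e1, abs_mul, abs_of_pos (by positivity)]
    have h3 := (wp_bound K q).2
    calc wp K J Z q * (10 * np K J ^ 2) * |A q l - Asp K J Z q l| ≤
          3 * (10 * np K J ^ 2) * δ := by
          gcongr; exact hA q l
      _ = 30 * np K J ^ 2 * δ := by ring
  refine ⟨h1, ?_, ?_⟩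
  · intro q
    have e1 : bA A (10 * np K J ^ 2) (wp K J Z) (op K J) q - bp K J Z q =
        dot (fun l => NA A (10 * np K J ^ 2) (wp K J Z) q l - Np K J Z q l) (op K J) := by
      have : (fun l => NA A (10 * np K J ^ 2) (wp K J Z) q l - Np K J Z q l) =
        NA A (10 * np K J ^ 2) (wp K J Z) q - Np K J Z q := rfl
      rw [this, sub_dot]
      unfold bA wp; ring
    rw [e1]
    have h2 := abs_dot_le (fun l => NA A (10 * np K J ^ 2) (wp K J Z) q l - Np K J Z q l)
      (op K J) (30 * np K J ^ 2 * δ) (1 / (4 * np K J)) (h1 q)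
      (fun l => by unfold op; rw [abs_of_pos (by positivity)])
    refine h2.trans ?_
    have : (Fintype.card (Kx K J) : ℝ) * (30 * np K J ^ 2 * δ * (1 / (4 * np K J))) =
        (30 * np K J ^ 2 * δ) / 4 := by
      show np K J * (30 * np K J ^ 2 * δ * (1 / (4 * np K J))) = _
      field_simp
    rw [this]
    have : 0 ≤ 30 * np K J ^ 2 * δ := by positivity
    linarith
  · intro l
    have e1 : ((10 * np K J) • c) l - cp K J l = (10 * np K J) * (c l - csp K J l) := by
      simp only [Pi.smul_apply, smul_eq_mul, csp]; field_simp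
    rw [e1, abs_mul, abs_of_pos (by positivity)]
    calc 10 * np K J * |c l - csp K J l| ≤ 10 * np K J * δ := by gcongr; exact hc l
      _ ≤ 30 * np K J ^ 2 * δ := mul_le_mul_of_nonneg_right (by nlinarith) hδ

section fin
variable {m n : ℕ} (K : ℕ) (f : Fin m ≃ Rx K J Z) (e : Fin n ≃ Kx K J)

theorem detp_path (A : Fin m → Fin n → ℝ) (c : Fin n → ℝ) (δ : ℝ) (hδ : 0 ≤ δ)
    (hA : ∀ i j, |A i j - Asp K J Z (f i) (e j)| ≤ δ) (hc : ∀ j, |c j - csp K J (e j)| ≤ δ)
    (hsm : 18000 * (np K J ^ 8 * RK K ^ 5 * δ) ≤ muK K) :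
    ((2 ^ K : ℕ) : ℕ∞) < pathLen A (zp K J ∘ e) c := by
  have hn := np_ge (J := J) K
  obtain ⟨h1, h2, h3⟩ := close_pad K (reA f e A) (c ∘ e.symm) δ hδ
    (fun q l => by simpa [reA] using hA (f.symm q) (e.symm l))
    (fun l => by simpa using hc (e.symm l))
  obtain ⟨L, hL, hP⟩ := pad_path K (by positivity) h1 h2 h3 (by
    refine le_trans (le_of_eq ?_) hsm
    show 600 * (np K J ^ 6 * RK K ^ 5 * (30 * np K J ^ 2 * δ)) = _
    ring)
  refine lt_pathLen A _ c (2 ^ K) L hL ?_
  apply re_path f e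
  have hz : (zp K J ∘ e) ∘ e.symm = zp K J := by funext l; simp
  rw [hz]
  exact phi_path (by positivity) (wp_pos K) (10 * np K J) (by positivity) L hP

theorem detp_shadow (hK : 0 < K) (A : Fin m → Fin n → ℝ) (c : Fin n → ℝ) (δ : ℝ) (hδ : 0 ≤ δ)
    (hA : ∀ i j, |A i j - Asp K J Z (f i) (e j)| ≤ δ) (hc : ∀ j, |c j - csp K J (e j)| ≤ δ)
    (hsm : 3 * 10 ^ 8 * (np K J ^ 8 * δ) ≤ 1) :
    shadowCard A (zp K J ∘ e) c ≤ Fintype.card (Kx K J) := by
  have hn := np_ge (J := J) K
  obtain ⟨h1, h2, h3⟩ := close_pad K (reA f e A) (c ∘ e.symm) δ hδ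
    (fun q l => by simpa [reA] using hA (f.symm q) (e.symm l))
    (fun l => by simpa using hc (e.symm l))
  have hΛ : 0 < 10 * np K J ^ 2 := by positivity
  have hΛc : 0 < 10 * np K J := by positivity
  have hw := wp_pos (J := J) (Z := Z) K
  unfold shadowCard
  apply encard_extreme
  let U : Submodule ℝ (EuclideanSpace ℝ (Fin n)) :=
    Submodule.span ℝ {WithLp.toLp 2 (zp K J ∘ e), WithLp.toLp 2 c}
  let T0 : (Kx K J → ℝ) →ₗ[ℝ] EuclideanSpace ℝ (Fin n) :=
    (U.starProjection : EuclideanSpace ℝ (Fin n) →ₗ[ℝ] EuclideanSpace ℝ (Fin n)) ∘ₗ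
      ((WithLp.linearEquiv 2 ℝ (Fin n → ℝ)).symm : (Fin n → ℝ) →ₗ[ℝ] EuclideanSpace ℝ (Fin n)) ∘ₗ
      (LinearMap.funLeft ℝ ℝ e)
  have hT0 : ∀ x, T0 x = U.starProjection (WithLp.toLp 2 (x ∘ e)) := fun x => rfl
  set Λ : ℝ := 10 * np K J ^ 2 with hΛd
  have hker : ∀ u, dot (zp K J) u = 0 → dot ((10 * np K J) • (c ∘ e.symm)) u = 0 →
      (Λ • T0) u = 0 := by
    intro u g1 g2
    rw [smul_dot] at g2
    have g3 : dot (c ∘ e.symm) u = 0 := (mul_eq_zero.1 g2).resolve_left hΛc.ne'
    rw [dot_re] at g3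
    have g1' : dot (zp K J ∘ e) (u ∘ e) = 0 := by
      rw [← dot_re]
      have hz : (zp K J ∘ e) ∘ e.symm = zp K J := by funext l; simp
      rw [hz]; exact g1
    have : T0 u = 0 := by
      rw [hT0, Submodule.starProjection_apply_eq_zero_iff, Submodule.mem_orthogonal]
      intro v hv
      refine Submodule.span_induction
        (p := fun v _ => inner ℝ v (WithLp.toLp 2 (u ∘ e)) = 0) ?_ ?_ ?_ ?_ hv
      · intro x hx
        rcases hx with rfl | hx
        · rw [EuclideanSpace.inner_toLp_toLp]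
          simpa [dotProduct, dot, mul_comm] using g1'
        · rw [Set.mem_singleton_iff] at hx
          subst hx
          rw [EuclideanSpace.inner_toLp_toLp]
          simpa [dotProduct, dot, mul_comm] using g3
      · simp
      · intro x y _ _ hx hy
        rw [inner_add_left, hx, hy, add_zero]
      · intro r x _ hx
        rw [inner_smul_left, hx, mul_zero]
    rw [LinearMap.smul_apply, this, smul_zero]
  obtain ⟨G, hG⟩ := outer_pad K hK (by positivity) h1 h2 h3 (by
    refine le_trans (le_of_eq ?_) hsm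
    show 10 ^ 7 * (np K J ^ 6 * (30 * np K J ^ 2 * δ)) = _
    ring) (Λ • T0) hker (- (Λ • T0 (op K J)))
  refine ⟨G, ?_⟩
  rw [← hG]
  unfold shadow
  ext y
  constructor
  · rintro ⟨x, hx, rfl⟩
    obtain ⟨s, rfl⟩ := re_surj e x
    obtain ⟨t, rfl⟩ := phi_surj (o := op K J) hΛ s
    refine ⟨t, (phi_feas hw t).1 ((re_feas f e _).1 hx), ?_⟩
    show (Λ • T0) t + -(Λ • T0 (op K J)) = T0 (phi Λ (op K J) t)
    rw [phi, map_smul, map_sub, LinearMap.smul_apply, smul_sub]
    abel
  · rintro ⟨t, ht, rfl⟩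
    refine ⟨phi Λ (op K J) t ∘ e, (re_feas f e _).2 ((phi_feas hw t).2 ht), ?_⟩
    show T0 (phi Λ (op K J) t) = (Λ • T0) t + -(Λ • T0 (op K J))
    rw [phi, map_smul, map_sub, LinearMap.smul_apply, smul_sub]
    abel

end fin

end Pool.Y644.SE
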