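import Pool.Agent.Y644.SE.DetP
import Pool.Agent.Y644.SE.Count
import Pool.Agent.H836R3.SE.Final

/-! Probability estimates for all dimensions and all small noise levels. -/

set_option autoImplicit false
set_option linter.unusedSectionVars false
set_option linter.unusedSimpArgs false

namespace Pool.Y644.SE

open MeasureTheory ProbabilityTheory
open Pool.H836R3.SE

theorem exp_ge_two_pow (N : ℕ) : (2:ℝ) ^ N ≤ Real.exp N := by
  have h : (2:ℝ) ≤ Real.exp 1 := by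
    have := Real.add_one_le_exp (1:ℝ)
    linarith
  calc (2:ℝ) ^ N ≤ (Real.exp 1) ^ N := pow_le_pow_left₀ (by norm_num) h N
    _ = Real.exp N := by rw [← Real.exp_nat_mul, mul_one]

/-- size of `δ` for the path -/
theorem delta_small' (K n : ℕ) (hKn : 2 * K + 4 ≤ n) (hn : (4:ℝ) ≤ n) :
    18000 * ((n:ℝ) ^ 8 * RK K ^ 5 * (1 / 2) ^ (64 * n)) ≤ muK K := by
  have h1 : (n:ℝ) ≤ 2 ^ n := by
    exact_mod_cast (Nat.lt_two_pow_self (n := n)).le
  have h2 : (n:ℝ) ^ 8 ≤ 2 ^ (8 * n) := by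
    have h0 : (0:ℝ) ≤ n := by linarith
    calc (n:ℝ) ^ 8 ≤ (2 ^ n) ^ 8 := pow_le_pow_left₀ h0 h1 8
      _ = _ := by rw [← pow_mul]; congr 1; ring
  have h3 : RK K ^ 5 ≤ 2 ^ (60 + 45 * K) := by
    unfold RK
    have : (400:ℝ) ^ K ≤ (2 ^ 9) ^ K := pow_le_pow_left₀ (by norm_num) (by norm_num) K
    calc (4000 * (400:ℝ) ^ K) ^ 5 ≤ (2 ^ 12 * (2 ^ 9) ^ K) ^ 5 := by
          gcongr; norm_num
      _ = _ := by rw [← pow_mul, ← pow_add, ← pow_mul]; congr 1; ring
  have h4 : (1:ℝ) / 2 ^ (14 + 10 * K) ≤ muK K := by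
    unfold muK
    have : (648:ℝ) ^ K ≤ (2 ^ 10) ^ K := pow_le_pow_left₀ (by norm_num) (by norm_num) K
    apply one_div_le_one_div_of_le (by positivity)
    calc (16000:ℝ) * 648 ^ K ≤ 2 ^ 14 * (2 ^ 10) ^ K := by gcongr; norm_num
      _ = _ := by rw [← pow_mul, ← pow_add]
  refine le_trans ?_ h4
  have hR : 0 ≤ RK K := by have := RK_ge K; linarith
  have hn0 : (0:ℝ) ≤ n := by linarith
  calc 18000 * ((n:ℝ) ^ 8 * RK K ^ 5 * (1 / 2) ^ (64 * n))
      ≤ 2 ^ 15 * (2 ^ (8 * n) * 2 ^ (60 + 45 * K) * (1 / 2) ^ (64 * n)) := by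
        gcongr; norm_num
    _ = 2 ^ (15 + 8 * n + (60 + 45 * K)) / 2 ^ (64 * n) := by
        rw [one_div_pow, pow_add, pow_add]; ring
    _ ≤ 1 / 2 ^ (14 + 10 * K) := by
        rw [div_le_div_iff₀ (by positivity) (by positivity), ← pow_add, one_mul]
        exact pow_le_pow_right₀ (by norm_num) (by omega)

/-- The comparison of the two probabilities: `s = 1/σ`, `s = 10^10 m n^9 y` with `y ≥ 1`. -/
theorem compare' (m n : ℕ) (σ : ℝ) (hn : 4 ≤ n) (hm : n ≤ m) (hσ : 0 < σ)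
    (hσ2 : σ * (10 ^ 10 * m * (n:ℝ) ^ 9) ≤ 1) :
    Real.exp (1 / (36 * 10 ^ 16 * σ ^ 2 * (n:ℝ) ^ 16)) * (((m * n + n : ℕ) : ℝ) *
        (2 * Real.exp (-((1 / (3 * 10 ^ 8 * (n:ℝ) ^ 8)) ^ 2 / (2 * σ ^ 2))))) ≤
      (min σ ((1 / 2 : ℝ) ^ (64 * n)) / 3) ^ (m * n + n) := by
  have hn4 : (4:ℝ) ≤ n := by exact_mod_cast hn
  have hnpos : (0:ℝ) < n := by linarith
  have hmn : (n:ℝ) ≤ m := by exact_mod_cast hm
  have hm4 : (4:ℝ) ≤ m := by linarith
  have hmpos : (0:ℝ) < m := by linarith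
  set y : ℝ := 1 / (σ * (10 ^ 10 * m * (n:ℝ) ^ 9)) with hy
  have hden : 0 < σ * (10 ^ 10 * m * (n:ℝ) ^ 9) := by positivity
  have hy1 : 1 ≤ y := by
    rw [hy, le_div_iff₀ hden]; linarith
  have hypos : 0 < y := by linarith
  have hσy : σ = 1 / (10 ^ 10 * m * (n:ℝ) ^ 9 * y) := by
    rw [hy]; field_simp
  set Q : ℝ := 1 / (36 * 10 ^ 16 * σ ^ 2 * (n:ℝ) ^ 16) with hQ
  have hQy : Q = 10 ^ 4 / 36 * (m ^ 2 * (n:ℝ) ^ 2 * y ^ 2) := by
    rw [hQ, hσy]; field_simp
  have hτ : (1 / (3 * 10 ^ 8 * (n:ℝ) ^ 8)) ^ 2 / (2 * σ ^ 2) = 2 * Q := by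
    rw [hQ]; field_simp; norm_num
  rw [hτ]
  -- lower bound for δ/3
  set L : ℝ := 2 + 64 * n + (42 + m + 9 * n + y) with hL
  have e1 : Real.exp (-2) ≤ 1 / 3 := by
    rw [Real.exp_neg, ← one_div]
    apply one_div_le_one_div_of_le (by norm_num)
    have := exp_ge_two_pow 2
    push_cast at this
    linarith
  have e2 : Real.exp (-(64 * (n:ℝ))) ≤ (1 / 2) ^ (64 * n) := by
    rw [Real.exp_neg, ← one_div, one_div_pow]
    apply one_div_le_one_div_of_le (by positivity)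
    have := exp_ge_two_pow (64 * n)
    push_cast at this
    exact this
  have e3 : Real.exp (-(42 + m + 9 * n + y)) ≤ σ := by
    rw [hσy, Real.exp_neg, ← one_div]
    apply one_div_le_one_div_of_le (by positivity)
    rw [Real.exp_add, Real.exp_add, Real.exp_add]
    have a1 : (10:ℝ) ^ 10 ≤ Real.exp 42 := by
      have := exp_ge_two_pow 42
      push_cast at this
      refine le_trans ?_ this
      norm_num
    have a2 : (m:ℝ) ≤ Real.exp m := by
      have := Real.add_one_le_exp (m:ℝ); linarith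
    have a3 : (n:ℝ) ^ 9 ≤ Real.exp (9 * n) := by
      have h0 : (n:ℝ) ≤ Real.exp n := by
        have := Real.add_one_le_exp (n:ℝ); linarith
      calc (n:ℝ) ^ 9 ≤ (Real.exp n) ^ 9 := pow_le_pow_left₀ hnpos.le h0 9
        _ = Real.exp (9 * n) := by rw [← Real.exp_nat_mul]; norm_num
    have a4 : y ≤ Real.exp y := by
      have := Real.add_one_le_exp y; linarith
    gcongr
  have hLlow : Real.exp (-L) ≤ min σ ((1 / 2 : ℝ) ^ (64 * n)) / 3 := by
    have e4 : Real.exp (-L) = Real.exp (-2) * Real.exp (-(64 * (n:ℝ))) *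
        Real.exp (-(42 + m + 9 * n + y)) := by
      rw [← Real.exp_add, ← Real.exp_add]; congr 1; rw [hL]; ring
    have p2 : Real.exp (-(64 * (n:ℝ))) ≤ 1 := Real.exp_le_one_iff.2 (by linarith)
    have p3 : Real.exp (-(42 + m + 9 * n + y)) ≤ 1 := Real.exp_le_one_iff.2 (by linarith)
    have q2 := (Real.exp_pos (-(64 * (n:ℝ)))).le
    have q3 := (Real.exp_pos (-(42 + m + 9 * n + y))).le
    have e5 : Real.exp (-(64 * (n:ℝ))) * Real.exp (-(42 + m + 9 * n + y)) ≤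
        min σ ((1 / 2 : ℝ) ^ (64 * n)) := by
      apply le_min
      · calc _ ≤ 1 * σ := mul_le_mul p2 e3 q3 zero_le_one
          _ = σ := one_mul _
      · calc _ ≤ (1 / 2 : ℝ) ^ (64 * n) * 1 := mul_le_mul e2 p3 q3 (by positivity)
          _ = _ := mul_one _
    rw [e4, mul_assoc]
    calc Real.exp (-2) * (Real.exp (-(64 * (n:ℝ))) * Real.exp (-(42 + m + 9 * n + y))) ≤
        1 / 3 * min σ ((1 / 2 : ℝ) ^ (64 * n)) :=
          mul_le_mul e1 e5 (mul_nonneg q2 q3) (by norm_num)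
      _ = _ := by ring
  set N : ℝ := ((m * n + n : ℕ) : ℝ) with hN
  have hN0 : 0 ≤ N := Nat.cast_nonneg _
  have hNe : N = m * n + n := by rw [hN]; push_cast; ring
  have hlow : Real.exp (-(N * L)) ≤ (min σ ((1 / 2 : ℝ) ^ (64 * n)) / 3) ^ (m * n + n) := by
    calc Real.exp (-(N * L)) = (Real.exp (-L)) ^ (m * n + n) := by
          rw [← Real.exp_nat_mul]; congr 1; rw [← hN]; ring
      _ ≤ _ := pow_le_pow_left₀ (Real.exp_pos _).le hLlow _
  refine le_trans ?_ hlow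
  have h2N : N * 2 ≤ Real.exp (2 * N) := by
    have := Real.add_one_le_exp (2 * N); linarith
  calc Real.exp Q * (N * (2 * Real.exp (-(2 * Q)))) =
        (N * 2) * (Real.exp Q * Real.exp (-(2 * Q))) := by ring
    _ ≤ Real.exp (2 * N) * (Real.exp Q * Real.exp (-(2 * Q))) := by gcongr
    _ = Real.exp (2 * N + (Q + -(2 * Q))) := by rw [Real.exp_add, Real.exp_add]
    _ ≤ Real.exp (-(N * L)) := by
        apply Real.exp_le_exp.2
        have h1 : N ≤ 2 * (m * n) := by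
          rw [hNe]; nlinarith
        have hmy : (1:ℝ) ≤ m * y := by nlinarith
        have h3 : 2 + L ≤ 121 * (m * y) := by
          rw [hL]
          have t1 : (n:ℝ) ≤ m * y := by nlinarith
          have t2 : (m:ℝ) ≤ m * y := by nlinarith
          have t3 : y ≤ m * y := by nlinarith
          linarith
        have hL0 : 0 ≤ 2 + L := by rw [hL]; linarith
        have h4 : N * (2 + L) ≤ 2 * (m * n) * (121 * (m * y)) := by gcongr
        have h5 : 2 * ((m:ℝ) * n) * (121 * (m * y)) ≤ Q := by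
          rw [hQy]
          have : 2 * ((m:ℝ) * n) * (121 * (m * y)) = 242 * (m ^ 2 * n * y) := by ring
          rw [this]
          have h6 : (m:ℝ) ^ 2 * n * y ≤ m ^ 2 * (n:ℝ) ^ 2 * y ^ 2 := by
            have : (n:ℝ) * y ≤ (n:ℝ) ^ 2 * y ^ 2 := by
              have h7 : (1:ℝ) ≤ n * y := by nlinarith
              calc (n:ℝ) * y = n * y * 1 := by ring
                _ ≤ n * y * (n * y) := by gcongr
                _ = _ := by ring
            calc (m:ℝ) ^ 2 * n * y = m ^ 2 * (n * y) := by ring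
              _ ≤ m ^ 2 * ((n:ℝ) ^ 2 * y ^ 2) := by gcongr
              _ = _ := by ring
          have h8 : 0 ≤ (m:ℝ) ^ 2 * (n:ℝ) ^ 2 * y ^ 2 := by positivity
          linarith
        nlinarith

/-- The main estimate for given `K`, `m`, `n`. -/
theorem main_KL (K m n : ℕ) (hK : 1 ≤ K) (hn : 2 * K + 4 ≤ n) (hm : n + (2 * K + 4) ≤ m) :
    ∃ (Abar : Fin m → Fin n → ℝ) (cbar z : Fin n → ℝ),
      ∑ i, ∑ j, Abar i j ^ 2 + ∑ j, cbar j ^ 2 ≤ 1 ∧
      ∀ σ : ℝ, 0 < σ → σ ≤ 1 / (10 ^ 10 * m * (n:ℝ) ^ 9) →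
        0 < law Abar cbar σ {ω | ((2 ^ K : ℕ) : ℕ∞) < pathLen ω.1 z ω.2} ∧
        ENNReal.ofReal (Real.exp (1 / (36 * 10 ^ 16 * σ ^ 2 * (n:ℝ) ^ 16))) *
            law Abar cbar σ {ω | (n : ℕ∞) < shadowCard ω.1 z ω.2} ≤
          law Abar cbar σ {ω | ((2 ^ K : ℕ) : ℕ∞) < pathLen ω.1 z ω.2} := by
  let J := Fin (n - (2 * K + 4))
  let Z := Fin (m - n - (2 * K + 4))
  have hcard : Fintype.card (Kx K J) = n := by
    rw [Fintype.card_sum, card_Ix, Fintype.card_fin]; omega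
  have hcard2 : Fintype.card (Rx K J Z) = m := by
    rw [Fintype.card_sum, Fintype.card_sum, Fintype.card_prod, card_Ix, Fintype.card_bool,
      Fintype.card_fin, Fintype.card_fin]; omega
  let e : Fin n ≃ Kx K J := (Fintype.equivFinOfCardEq hcard).symm
  let f : Fin m ≃ Rx K J Z := (Fintype.equivFinOfCardEq hcard2).symm
  have hnn : np K J = (n : ℝ) := by unfold np; rw [hcard]
  have hn4 : (4:ℝ) ≤ n := by exact_mod_cast (show 4 ≤ n by omega)
  have hnpos : (0:ℝ) < n := by linarith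
  have hmpos : (0:ℝ) < m := by exact_mod_cast (show 0 < m by omega)
  set Abar : Fin m → Fin n → ℝ := fun i j => Asp K J Z (f i) (e j) with hAbar
  set cbar : Fin n → ℝ := fun j => csp K J (e j) with hcbar
  refine ⟨Abar, cbar, zp K J ∘ e, ?_, ?_⟩
  · have h1 : ∑ i, ∑ j, Abar i j ^ 2 = ∑ q, ∑ l, Asp K J Z q l ^ 2 := by
      rw [← Equiv.sum_comp f]
      refine Finset.sum_congr rfl (fun i _ => ?_)
      rw [← Equiv.sum_comp e]
    have h2 : ∑ j, cbar j ^ 2 = ∑ l, csp K J l ^ 2 := by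
      rw [← Equiv.sum_comp e]
    rw [h1, h2]
    exact frobp K
  · intro σ hσ0 hσs
    have hden : (1:ℝ) ≤ 10 ^ 10 * m * (n:ℝ) ^ 9 := by
      have h1 : (1:ℝ) ≤ m := by exact_mod_cast (show 1 ≤ m by omega)
      have h2 : (1:ℝ) ≤ (n:ℝ) ^ 9 := one_le_pow₀ (by linarith)
      have h3 : (1:ℝ) ≤ 10 ^ 10 * m := by nlinarith
      nlinarith
    have hσ1 : σ ≤ 1 := hσs.trans (by
      rw [div_le_one (by linarith)]; exact hden)
    have hσ2 : σ * (10 ^ 10 * m * (n:ℝ) ^ 9) ≤ 1 := by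
      rwa [le_div_iff₀ (by linarith)] at hσs
    set δ : ℝ := min σ ((1 / 2) ^ (64 * n)) with hδ
    set τ : ℝ := 1 / (3 * 10 ^ 8 * (n:ℝ) ^ 8) with hτ
    have hδ0 : 0 < δ := lt_min hσ0 (by positivity)
    have hδσ : δ ≤ σ := min_le_left _ _
    have hlow := prob_low Abar cbar σ δ hσ0 hσ1 hδ0.le hδσ
    have hup := prob_up Abar cbar σ τ hσ0 (by positivity)
    have hpath : box Abar cbar δ ⊆
        {ω | ((2 ^ K : ℕ) : ℕ∞) < pathLen ω.1 (zp K J ∘ e) ω.2} := by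
      intro ω hω
      refine detp_path K f e ω.1 ω.2 δ hδ0.le hω.1 hω.2 ?_
      rw [hnn]
      refine le_trans ?_ (delta_small' K n hn hn4)
      have hR : 0 ≤ RK K := by have := RK_ge K; linarith
      have : δ ≤ (1 / 2) ^ (64 * n) := min_le_right _ _
      gcongr
    have hshadow : {ω : (Fin m → Fin n → ℝ) × (Fin n → ℝ) |
        (n : ℕ∞) < shadowCard ω.1 (zp K J ∘ e) ω.2} ⊆ (box Abar cbar τ)ᶜ := by
      intro ω hω hbox
      have h1 := detp_shadow K f e (by omega) ω.1 ω.2 τ (by positivity) hbox.1 hbox.2 (by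
        rw [hnn, hτ]; field_simp; exact le_rfl)
      have h2 : (n : ℕ∞) < (Fintype.card (Kx K J) : ℕ∞) := lt_of_lt_of_le hω h1
      rw [hcard] at h2
      exact absurd h2 (lt_irrefl _)
    have hpos : 0 < ENNReal.ofReal (δ / 3) ^ (m * n + n) := by
      apply ENNReal.pow_pos
      rw [ENNReal.ofReal_pos]; positivity
    refine ⟨hpos.trans_le (hlow.trans (measure_mono hpath)), ?_⟩
    have hcmp := compare' m n σ (by omega) (by omega) hσ0 hσ2
    set α := Real.exp (1 / (36 * 10 ^ 16 * σ ^ 2 * (n:ℝ) ^ 16)) with hα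
    calc ENNReal.ofReal α * law Abar cbar σ {ω | (n : ℕ∞) < shadowCard ω.1 (zp K J ∘ e) ω.2}
        ≤ ENNReal.ofReal α * (((m * n + n : ℕ) : ENNReal) *
            ENNReal.ofReal (2 * Real.exp (-(τ ^ 2 / (2 * σ ^ 2))))) := by
          gcongr
          exact (measure_mono hshadow).trans hup
      _ = ENNReal.ofReal (α * (((m * n + n : ℕ) : ℝ) *
            (2 * Real.exp (-(τ ^ 2 / (2 * σ ^ 2)))))) := by
          rw [← ENNReal.ofReal_natCast, ← ENNReal.ofReal_mul (Nat.cast_nonneg _),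
            ← ENNReal.ofReal_mul' (by positivity)]
      _ ≤ ENNReal.ofReal ((δ / 3) ^ (m * n + n)) := ENNReal.ofReal_le_ofReal hcmp
      _ = ENNReal.ofReal (δ / 3) ^ (m * n + n) := by
          rw [ENNReal.ofReal_pow (by positivity)]
      _ ≤ law Abar cbar σ (box Abar cbar δ) := hlow
      _ ≤ _ := measure_mono hpath

end Pool.Y644.SE
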