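import Pool.Agent.Y644.SE.FinalP

/-! Polynomial factors and polynomial thresholds. -/

set_option autoImplicit false
set_option linter.unusedSectionVars false
set_option linter.unusedSimpArgs false

namespace Pool.Y644.SE

open MeasureTheory ProbabilityTheory Filter
open Pool.H836R3.SE

theorem poly_bound (p : MvPolynomial (Fin 3) ℝ) : ∃ (B : ℝ) (a : ℕ), 1 ≤ B ∧
    ∀ (v : Fin 3 → ℝ) (M : ℝ), 1 ≤ M → (∀ i, |v i| ≤ M) →
      |MvPolynomial.eval v p| ≤ B * M ^ a := by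
  induction p using MvPolynomial.induction_on with
  | C r =>
    refine ⟨max 1 |r|, 0, le_max_left _ _, fun v M _ _ => ?_⟩
    rw [MvPolynomial.eval_C, pow_zero, mul_one]
    exact le_max_right _ _
  | add p q hp hq =>
    obtain ⟨B1, a1, h1, h1'⟩ := hp
    obtain ⟨B2, a2, h2, h2'⟩ := hq
    refine ⟨B1 + B2, max a1 a2, by linarith, fun v M hM hv => ?_⟩
    rw [map_add]
    refine (abs_add_le _ _).trans ?_
    have t1 := h1' v M hM hv
    have t2 := h2' v M hM hv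
    have e1 : M ^ a1 ≤ M ^ max a1 a2 := pow_le_pow_right₀ hM (le_max_left _ _)
    have e2 : M ^ a2 ≤ M ^ max a1 a2 := pow_le_pow_right₀ hM (le_max_right _ _)
    nlinarith
  | mul_X p i hp =>
    obtain ⟨B1, a1, h1, h1'⟩ := hp
    refine ⟨B1, a1 + 1, h1, fun v M hM hv => ?_⟩
    rw [map_mul, MvPolynomial.eval_X, abs_mul, pow_succ, ← mul_assoc]
    exact mul_le_mul (h1' v M hM hv) (hv i) (abs_nonneg _) (by positivity)

instance law_prob {m n : ℕ} (Abar : Fin m → Fin n → ℝ) (cbar : Fin n → ℝ) (σ : ℝ) :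
    IsProbabilityMeasure (law Abar cbar σ) := by
  unfold law lawA lawc
  infer_instance

/-- For polynomially small noise the domination fails for all `m`, `n` with `min n (m - n)` at
least a constant times `log m`. -/
theorem main_poly (D : ℕ) (α x₀ : MvPolynomial (Fin 3) ℝ) : ∃ C : ℝ, ∀ (m n k : ℕ) (σ : ℝ),
    k ≤ n → n + k ≤ m → C * (1 + Real.log m) ≤ k → 1 / (m:ℝ) ^ D ≤ σ →
    σ ≤ 1 / (10 ^ 10 * m * (n:ℝ) ^ 9) →
    ∃ (Abar : Fin m → Fin n → ℝ) (cbar z : Fin n → ℝ) (x : ℕ),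
      ∑ i, ∑ j, Abar i j ^ 2 + ∑ j, cbar j ^ 2 ≤ 1 ∧
      MvPolynomial.eval ![(m : ℝ), (n : ℝ), 1 / σ] x₀ < x ∧
      ENNReal.ofReal (MvPolynomial.eval ![(m : ℝ), (n : ℝ), 1 / σ] α) *
          law Abar cbar σ {ω | (x : ℕ∞) < shadowCard ω.1 z ω.2} <
        law Abar cbar σ {ω | (x : ℕ∞) < pathLen ω.1 z ω.2} := by
  obtain ⟨B1, a1, hB1, h1⟩ := poly_bound α
  obtain ⟨B2, a2, hB2, h2⟩ := poly_bound x₀
  set B := B1 + B2 with hB
  set e := (D + 1) * (a1 + a2) + 1 with he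
  have hB0 : 1 ≤ B := by linarith
  have hlB : 0 ≤ Real.log B := Real.log_nonneg hB0
  refine ⟨3 * Real.log B + 3 * e + 6, fun m n k σ hkn hkm hC hσl hσu => ?_⟩
  -- sizes
  have hk0 : (k:ℝ) ≤ m := by exact_mod_cast (show k ≤ m by omega)
  have hm0 : 1 ≤ m := by
    by_contra hcon
    have hm : m = 0 := by omega
    subst hm
    simp only [Nat.cast_zero, Real.log_zero, add_zero, mul_one] at hC hk0
    have : (0:ℝ) ≤ e := Nat.cast_nonneg _
    linarith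
  have hm1 : (1:ℝ) ≤ m := by exact_mod_cast hm0
  have hmpos : (0:ℝ) < m := by linarith
  have hlm : 0 ≤ Real.log m := Real.log_nonneg hm1
  have he0 : (0:ℝ) ≤ e := Nat.cast_nonneg _
  have hCk : 3 * Real.log B + 3 * e * Real.log m + 6 ≤ k := by
    have : 3 * Real.log B + 3 * e * Real.log m + 6 ≤
        (3 * Real.log B + 3 * e + 6) * (1 + Real.log m) := by nlinarith
    linarith
  have hk6 : (6:ℝ) ≤ k := by
    have : 0 ≤ 3 * (e:ℝ) * Real.log m := by positivity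
    linarith
  have hk6' : 6 ≤ k := by exact_mod_cast hk6
  have hσ0 : 0 < σ := lt_of_lt_of_le (by positivity) hσl
  have hσm : 1 / σ ≤ (m:ℝ) ^ D := by
    rw [div_le_iff₀ (by positivity)] at hσl
    rw [div_le_iff₀ hσ0]; linarith
  obtain ⟨K, hK1, hK2⟩ : ∃ K : ℕ, 2 * K + 4 ≤ k ∧ k ≤ 2 * K + 5 := ⟨(k - 4) / 2, by omega, by omega⟩
  obtain ⟨Abar, cbar, z, hF, hmain⟩ := main_KL K m n (by omega) (by omega) (by omega)
  obtain ⟨hpos, hle⟩ := hmain σ hσ0 hσu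
  -- the bound `B * m ^ e < 2 ^ K`
  have hbig : B * (m:ℝ) ^ e < 2 ^ K := by
    have hBm : 0 < B * (m:ℝ) ^ e := by positivity
    rw [← Real.log_lt_log_iff hBm (by positivity), Real.log_mul (by linarith) (by positivity),
      Real.log_pow, Real.log_pow]
    have hl2 : (0.69:ℝ) < Real.log 2 := by
      have := Real.log_two_gt_d9; linarith
    have hK2' : (k:ℝ) ≤ 2 * K + 5 := by exact_mod_cast hK2
    have hK1' : (1:ℝ) ≤ K := by exact_mod_cast (show 1 ≤ K by omega)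
    nlinarith
  have hM : ∀ i : Fin 3, |(![(m : ℝ), (n : ℝ), 1 / σ] : Fin 3 → ℝ) i| ≤ (m:ℝ) ^ (D + 1) := by
    have hnm : (n:ℝ) ≤ m := by exact_mod_cast (show n ≤ m by omega)
    have hmD : (m:ℝ) ≤ m ^ (D + 1) := by
      calc (m:ℝ) = m ^ 1 := (pow_one _).symm
        _ ≤ m ^ (D + 1) := pow_le_pow_right₀ hm1 (by omega)
    have hDD : (m:ℝ) ^ D ≤ m ^ (D + 1) := pow_le_pow_right₀ hm1 (by omega)
    intro i
    fin_cases i
    · simpa using hmD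
    · simp only [Fin.mk_one, Matrix.cons_val_one, Matrix.cons_val_zero, Nat.abs_cast]
      linarith
    · show |1 / σ| ≤ _
      rw [abs_of_pos (by positivity)]
      linarith
  have hM1 : (1:ℝ) ≤ (m:ℝ) ^ (D + 1) := one_le_pow₀ hm1
  have hα := h1 _ _ hM1 hM
  have hx := h2 _ _ hM1 hM
  have hpw1 : ((m:ℝ) ^ (D + 1)) ^ a1 ≤ (m:ℝ) ^ e := by
    rw [← pow_mul]; exact pow_le_pow_right₀ hm1 (by rw [he]; nlinarith)
  have hpw2 : ((m:ℝ) ^ (D + 1)) ^ a2 ≤ (m:ℝ) ^ e := by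
    rw [← pow_mul]; exact pow_le_pow_right₀ hm1 (by rw [he]; nlinarith)
  have hme : (0:ℝ) < (m:ℝ) ^ e := by positivity
  have hα2 : MvPolynomial.eval ![(m : ℝ), (n : ℝ), 1 / σ] α < 2 ^ K := by
    have := le_abs_self (MvPolynomial.eval ![(m : ℝ), (n : ℝ), 1 / σ] α)
    have t : B1 * ((m:ℝ) ^ (D + 1)) ^ a1 ≤ B * (m:ℝ) ^ e :=
      mul_le_mul (by linarith) hpw1 (by positivity) (by linarith)
    linarith
  have hx2 : MvPolynomial.eval ![(m : ℝ), (n : ℝ), 1 / σ] x₀ < 2 ^ K := by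
    have := le_abs_self (MvPolynomial.eval ![(m : ℝ), (n : ℝ), 1 / σ] x₀)
    have t : B2 * ((m:ℝ) ^ (D + 1)) ^ a2 ≤ B * (m:ℝ) ^ e :=
      mul_le_mul (by linarith) hpw2 (by positivity) (by linarith)
    linarith
  have hnK : n ≤ 2 ^ K := by
    have : (n:ℝ) ≤ 2 ^ K := by
      have hnm : (n:ℝ) ≤ m := by exact_mod_cast (show n ≤ m by omega)
      have : (m:ℝ) ≤ B * (m:ℝ) ^ e := by
        have : (m:ℝ) ≤ (m:ℝ) ^ e := by
          calc (m:ℝ) = m ^ 1 := (pow_one _).symm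
            _ ≤ m ^ e := pow_le_pow_right₀ hm1 (by rw [he]; omega)
        nlinarith
      linarith
    exact_mod_cast this
  refine ⟨Abar, cbar, z, 2 ^ K, hF, by push_cast; exact hx2, ?_⟩
  have hexp : MvPolynomial.eval ![(m : ℝ), (n : ℝ), 1 / σ] α <
      Real.exp (1 / (36 * 10 ^ 16 * σ ^ 2 * (n:ℝ) ^ 16)) := by
    have hKn : (K:ℝ) ≤ n := by exact_mod_cast (show K ≤ n by omega)
    have hnpos : (0:ℝ) < n := by exact_mod_cast (show 0 < n by omega)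
    have hσ2 : σ * (10 ^ 10 * m * (n:ℝ) ^ 9) ≤ 1 := by
      rwa [le_div_iff₀ (by positivity)] at hσu
    have hQ : (K:ℝ) ≤ 1 / (36 * 10 ^ 16 * σ ^ 2 * (n:ℝ) ^ 16) := by
      rw [le_div_iff₀ (by positivity)]
      have h3 : (σ * (10 ^ 10 * m * (n:ℝ) ^ 9)) ^ 2 ≤ 1 := by
        have h0 : 0 ≤ σ * (10 ^ 10 * m * (n:ℝ) ^ 9) := by positivity
        nlinarith
      have h4 : (K:ℝ) * (36 * 10 ^ 16 * σ ^ 2 * (n:ℝ) ^ 16) ≤
          (σ * (10 ^ 10 * m * (n:ℝ) ^ 9)) ^ 2 := by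
        have e1 : (σ * (10 ^ 10 * m * (n:ℝ) ^ 9)) ^ 2 =
          (10 ^ 4 * m ^ 2 * (n:ℝ) ^ 2) * (10 ^ 16 * σ ^ 2 * (n:ℝ) ^ 16) := by ring
        have e2 : (K:ℝ) * (36 * 10 ^ 16 * σ ^ 2 * (n:ℝ) ^ 16) =
          (36 * K) * (10 ^ 16 * σ ^ 2 * (n:ℝ) ^ 16) := by ring
        rw [e1, e2]
        apply mul_le_mul_of_nonneg_right _ (by positivity)
        have hn1 : (1:ℝ) ≤ n := by exact_mod_cast (show 1 ≤ n by omega)
        have hm2 : (1:ℝ) ≤ (m:ℝ) ^ 2 := one_le_pow₀ hm1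
        have hn2 : (n:ℝ) ≤ (n:ℝ) ^ 2 := by nlinarith
        calc 36 * (K:ℝ) ≤ 36 * (n:ℝ) ^ 2 := by linarith
          _ ≤ 10 ^ 4 * 1 * (n:ℝ) ^ 2 := by nlinarith
          _ ≤ 10 ^ 4 * m ^ 2 * (n:ℝ) ^ 2 := by gcongr
      linarith
    calc _ < (2:ℝ) ^ K := hα2
      _ ≤ Real.exp K := exp_ge_two_pow K
      _ ≤ _ := Real.exp_le_exp.2 hQ
  set q := law Abar cbar σ {ω | ((2 ^ K : ℕ) : ℕ∞) < shadowCard ω.1 z ω.2} with hq
  have hqp : q ≤ law Abar cbar σ {ω | (n : ℕ∞) < shadowCard ω.1 z ω.2} := by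
    apply measure_mono
    intro ω hω
    have hnK' : (n : ℕ∞) ≤ ((2 ^ K : ℕ) : ℕ∞) := by exact_mod_cast hnK
    exact lt_of_le_of_lt hnK' hω
  rcases eq_or_ne q 0 with hq0 | hq0
  · rw [hq0, mul_zero]; exact hpos
  · have hqt : q ≠ ⊤ := measure_ne_top _ _
    have h3 : ENNReal.ofReal (MvPolynomial.eval ![(m : ℝ), (n : ℝ), 1 / σ] α) <
        ENNReal.ofReal (Real.exp (1 / (36 * 10 ^ 16 * σ ^ 2 * (n:ℝ) ^ 16))) := by
      rw [ENNReal.ofReal_lt_ofReal_iff (Real.exp_pos _)]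
      exact hexp
    calc _ < ENNReal.ofReal (Real.exp (1 / (36 * 10 ^ 16 * σ ^ 2 * (n:ℝ) ^ 16))) * q :=
          ENNReal.mul_lt_mul_left hq0 hqt h3
      _ ≤ _ := (mul_le_mul_right hqp _).trans hle

/-- The literal negation of the question, for polynomial factors. -/
theorem main_literal (α x₀ : MvPolynomial (Fin 3) ℝ) :
    ∃ (m n : ℕ) (σ : ℝ) (Abar : Fin m → Fin n → ℝ) (cbar z : Fin n → ℝ) (x : ℕ),
      0 < σ ∧ ∑ i, ∑ j, Abar i j ^ 2 + ∑ j, cbar j ^ 2 ≤ 1 ∧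
      MvPolynomial.eval ![(m : ℝ), (n : ℝ), 1 / σ] x₀ < x ∧
      ENNReal.ofReal (MvPolynomial.eval ![(m : ℝ), (n : ℝ), 1 / σ] α) *
          law Abar cbar σ {ω | (x : ℕ∞) < shadowCard ω.1 z ω.2} <
        law Abar cbar σ {ω | (x : ℕ∞) < pathLen ω.1 z ω.2} := by
  obtain ⟨C, hC⟩ := main_poly 44 α x₀
  have h1 : ∀ᶠ n : ℕ in atTop, C * (1 + Real.log ((2 * n : ℕ) : ℝ)) ≤ n := by
    have hl : (fun n : ℕ => Real.log (n : ℝ)) =o[atTop] (fun n : ℕ => (n : ℝ)) :=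
      Real.isLittleO_log_id_atTop.comp_tendsto tendsto_natCast_atTop_atTop
    have hb := hl.bound (show (0:ℝ) < 1 / (2 * (|C| + 1)) by positivity)
    have h3 : ∀ᶠ n : ℕ in atTop, 4 * (|C| + 1) ≤ (n : ℝ) :=
      tendsto_natCast_atTop_atTop.eventually_ge_atTop _
    filter_upwards [hb, h3, eventually_ge_atTop 1] with n hn hn3 hn1
    have hn1' : (1:ℝ) ≤ n := by exact_mod_cast hn1
    have hln : 0 ≤ Real.log n := Real.log_nonneg hn1'
    rw [Real.norm_eq_abs, Real.norm_eq_abs, abs_of_nonneg hln,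
      abs_of_nonneg (by linarith : (0:ℝ) ≤ n)] at hn
    have hl2 : Real.log 2 ≤ 1 := by
      have := Real.log_two_lt_d9; linarith
    have hlog : Real.log ((2 * n : ℕ) : ℝ) ≤ 1 + Real.log n := by
      push_cast
      rw [Real.log_mul (by norm_num) (by linarith)]
      linarith
    have hC1 : 0 < |C| + 1 := by positivity
    have h4 : (|C| + 1) * Real.log n ≤ n / 2 := by
      calc (|C| + 1) * Real.log n ≤ (|C| + 1) * (1 / (2 * (|C| + 1)) * n) := by gcongr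
        _ = n / 2 := by field_simp
    have hl0 : 0 ≤ 1 + Real.log ((2 * n : ℕ) : ℝ) := by
      have : 0 ≤ Real.log ((2 * n : ℕ) : ℝ) := Real.log_nonneg (by push_cast; linarith)
      linarith
    calc C * (1 + Real.log ((2 * n : ℕ) : ℝ)) ≤ (|C| + 1) * (1 + Real.log ((2 * n : ℕ) : ℝ)) := by
          apply mul_le_mul_of_nonneg_right _ hl0
          have := le_abs_self C; linarith
      _ ≤ (|C| + 1) * (2 + Real.log n) := by
          apply mul_le_mul_of_nonneg_left _ hC1.le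
          linarith
      _ = 2 * (|C| + 1) + (|C| + 1) * Real.log n := by ring
      _ ≤ n := by linarith
  obtain ⟨n, hn, hn1⟩ := (h1.and (eventually_ge_atTop 1)).exists
  have hn1' : (1:ℝ) ≤ n := by exact_mod_cast hn1
  have hσ : 0 < 1 / (10 ^ 10 * ((2 * n : ℕ) : ℝ) * (n:ℝ) ^ 9) := by
    push_cast; positivity
  have hσl : 1 / ((2 * n : ℕ) : ℝ) ^ 44 ≤ 1 / (10 ^ 10 * ((2 * n : ℕ) : ℝ) * (n:ℝ) ^ 9) := by
    apply one_div_le_one_div_of_le (by push_cast; positivity)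
    push_cast
    have h10 : (10:ℝ) ^ 10 ≤ 2 ^ 34 := by norm_num
    set t : ℝ := 2 * (n:ℝ) with ht
    have h2n : (2:ℝ) ≤ t := by linarith
    have hle : (n:ℝ) ≤ t := by linarith
    have this : (2:ℝ) ^ 34 ≤ t ^ 34 := pow_le_pow_left₀ (by norm_num) h2n 34
    have h10' : (10:ℝ) ^ 10 ≤ t ^ 34 := h10.trans this
    have h9 : (n:ℝ) ^ 9 ≤ t ^ 9 := pow_le_pow_left₀ (by linarith) hle 9
    calc (10:ℝ) ^ 10 * t * (n:ℝ) ^ 9 ≤ t ^ 34 * t * t ^ 9 := by gcongr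
      _ = t ^ 44 := by ring
  obtain ⟨Abar, cbar, z, x, h⟩ := hC (2 * n) n n
    (1 / (10 ^ 10 * ((2 * n : ℕ) : ℝ) * (n:ℝ) ^ 9)) le_rfl (by omega) hn hσl le_rfl
  exact ⟨2 * n, n, _, Abar, cbar, z, x, hσ, h⟩

end Pool.Y644.SE
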