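import Pool.Agent.H836R3.SE.Outer

/-!
# The steepest-edge gadget with additional variables and additional constraints

The gadget linear program of `Pool.Agent.H836R3.SE` has `2 K + 4` variables and twice as many
constraints.  Here it is padded with `J` further variables (each with the constraint `0 ≤ x_j`,
and entering the far constraint) and with `Z` further constraints with zero normal vector.
-/

set_option autoImplicit false
set_option linter.unusedSectionVars false
set_option linter.unusedSimpArgs false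

namespace Pool.Y644.SE

open Pool.H836R3.SE

variable {J Z : Type} [Fintype J] [DecidableEq J] [Fintype Z] [DecidableEq Z]

/-- index set of the coordinates of the padded program -/
abbrev Kx (K : ℕ) (J : Type) := Ix K ⊕ J

/-- index set of the constraints of the padded program -/
abbrev Rx (K : ℕ) (J Z : Type) := (Ix K × Bool) ⊕ (J ⊕ Z)

noncomputable def Np (K : ℕ) (J Z : Type) [DecidableEq J] : Rx K J Z → Kx K J → ℝ
  | Sum.inl q, Sum.inl l => NN K q l
  | Sum.inl q, Sum.inr _ => if q = (Sum.inr 3, true) then 1 / 2 else 0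
  | Sum.inr (Sum.inl j), l => if l = Sum.inr j then -1 else 0
  | Sum.inr (Sum.inr _), _ => 0

noncomputable def bp (K : ℕ) (J Z : Type) : Rx K J Z → ℝ
  | Sum.inl q => bb K q
  | Sum.inr (Sum.inl _) => 0
  | Sum.inr (Sum.inr _) => 1

noncomputable def cp (K : ℕ) (J : Type) : Kx K J → ℝ
  | Sum.inl l => cc K l
  | Sum.inr _ => -1

noncomputable def zp (K : ℕ) (J : Type) : Kx K J → ℝ
  | Sum.inl l => zc K l
  | Sum.inr _ => -1

theorem Np_bound (K : ℕ) (q : Rx K J Z) (l : Kx K J) : |Np K J Z q l| ≤ 1 := by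
  rcases q with q | j | z
  · rcases l with l | j
    · exact NN_bound K q l
    · simp only [Np]; split_ifs
      · rw [abs_of_pos] <;> norm_num
      · simp
  · simp only [Np]; split_ifs <;> simp
  · simp [Np]

theorem bp_bound (K : ℕ) (q : Rx K J Z) : 0 ≤ bp K J Z q ∧ bp K J Z q ≤ 2 := by
  rcases q with q | j | z
  · exact bb_bound K q
  · simp [bp]
  · simp [bp]

theorem cp_bound (K : ℕ) (l : Kx K J) : |cp K J l| ≤ 4 := by
  rcases l with l | j
  · exact cc_bound K l
  · simp [cp]

theorem zp_bound (K : ℕ) (l : Kx K J) : zp K J l ≤ -1 ∧ |zp K J l| ≤ 10 := by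
  rcases l with l | j
  · exact zc_bound K l
  · simp [zp]

theorem dot_pad (K : ℕ) (u v : Kx K J → ℝ) :
    dot u v = dot (fun l => u (Sum.inl l)) (fun l => v (Sum.inl l)) +
      dot (fun j => u (Sum.inr j)) (fun j => v (Sum.inr j)) := by
  unfold dot
  rw [Fintype.sum_sum_type]

/-- padded tight constraints -/
def tfp (K : ℕ) (J Z : Type) (tf : Ix K → Ix K × Bool) : Kx K J → Rx K J Z
  | Sum.inl l => Sum.inl (tf l)
  | Sum.inr j => Sum.inr (Sum.inl j)

/-- padded vertex -/
def tp (K : ℕ) (J : Type) (t : Ix K → ℝ) : Kx K J → ℝ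
  | Sum.inl l => t l
  | Sum.inr _ => 0

/-- padded edge directions -/
def dp (K : ℕ) (J : Type) [DecidableEq J] (δ : Ix K → Ix K → ℝ) : Kx K J → Kx K J → ℝ
  | Sum.inl i => tp K J (δ i)
  | Sum.inr j => fun l => if l = Sum.inr j then 1 else 0

theorem dot_tp (K : ℕ) (u : Kx K J → ℝ) (t : Ix K → ℝ) :
    dot u (tp K J t) = dot (fun l => u (Sum.inl l)) t := by
  rw [dot_pad]
  have h1 : dot (fun j => u (Sum.inr j)) (fun j => tp K J t (Sum.inr j)) = 0 := by
    simp [dot, tp]
  rw [h1, add_zero]
  rfl

theorem dot_tp_tp (K : ℕ) (s t : Ix K → ℝ) : dot (tp K J s) (tp K J t) = dot s t := by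
  rw [dot_tp]; rfl

theorem dot_ep (K : ℕ) (u : Kx K J → ℝ) (j : Kx K J) :
    dot u (fun l => if l = j then 1 else 0) = u j := by
  rw [dot_comm, dot_single]; ring

theorem VBase_pad (K : ℕ) {R μ : ℝ} {tf : Ix K → Ix K × Bool} {t : Ix K → ℝ}
    {δ : Ix K → Ix K → ℝ} (h : VBase (NN K) (bb K) R μ tf t δ) (hR : 1 ≤ R) (hμ1 : μ ≤ 1)
    (hfar : ∀ j, tf j ≠ (Sum.inr 3, true)) :
    VBase (Np K J Z) (bp K J Z) R μ (tfp K J Z tf) (tp K J t) (dp K J δ) := by
  refine ⟨?_, ?_, ?_, ?_, ?_, ?_⟩
  · intro a b hab
    rcases a with a | a <;> rcases b with b | b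
    · simp only [tfp, Sum.inl.injEq] at hab
      rw [h.inj hab]
    · simp [tfp] at hab
    · simp [tfp] at hab
    · simp only [tfp, Sum.inr.injEq, Sum.inl.injEq] at hab
      rw [hab]
  · intro i j
    rcases i with i | i <;> rcases j with j | j
    · simp only [tfp, dp]
      rw [dot_tp]
      have := h.dir i j
      simp only [Sum.inl.injEq]
      exact this
    · simp only [tfp, dp]
      rw [dot_ep]
      simp [Np, hfar]
    · simp only [tfp, dp]
      rw [dot_tp]
      simp [Np, dot]
    · simp only [tfp, dp]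
      rw [dot_ep]
      simp only [Np, Sum.inr.injEq]
      by_cases hij : i = j
      · simp [hij]
      · have : ¬ j = i := fun e => hij e.symm
        simp [hij, this]
  · intro j
    rcases j with j | j
    · simp only [tfp]
      rw [dot_tp]
      exact h.tgt j
    · simp only [tfp, bp]
      rw [dot_tp]
      simp [Np, dot]
  · intro q hq
    rcases q with q | j | z
    · rw [dot_tp]
      exact h.slack q (fun j hj => hq (Sum.inl j) (by simp [tfp, hj]))
    · exact absurd rfl (hq (Sum.inr j))
    · rw [dot_tp]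
      simp [Np, bp, dot]
      exact hμ1
  · intro l
    rcases l with l | j
    · exact h.bt l
    · simp [tp]
  · intro j l
    rcases j with j | j
    · rcases l with l | l
      · exact h.bδ j l
      · simp only [dp, tp, abs_zero]; linarith
    · simp only [dp]; split_ifs
      · simpa using hR
      · simp only [abs_zero]; linarith

/-- gains and norms of the padded directions -/
theorem good_pad (K : ℕ) {δ : Ix K → Ix K → ℝ} {js : Ix K} (h : GoodStep K δ js) :
    muK K ≤ dot (cp K J) (dp K J δ (Sum.inl js)) ∧ ∀ j, j ≠ Sum.inl js →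
      dot (cp K J) (dp K J δ j) ≤ - muK K ∨
      (dot (cp K J) (dp K J δ j)) ^ 2 * dot (dp K J δ (Sum.inl js)) (dp K J δ (Sum.inl js)) +
        muK K ≤ (dot (cp K J) (dp K J δ (Sum.inl js))) ^ 2 * dot (dp K J δ j) (dp K J δ j) := by
  have hc : ∀ i, dot (cp K J) (dp K J δ (Sum.inl i)) = dot (cc K) (δ i) := by
    intro i
    simp only [dp]
    rw [dot_tp]; rfl
  have hn : ∀ i, dot (dp K J δ (Sum.inl i)) (dp K J δ (Sum.inl i)) = dot (δ i) (δ i) := by
    intro i
    simp only [dp]
    rw [dot_tp_tp]
  refine ⟨by rw [hc]; exact h.1, ?_⟩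
  intro j hj
  rcases j with j | j
  · have hne : j ≠ js := fun e => hj (by rw [e])
    rw [hc, hc, hn, hn]
    exact h.2 j hne
  · left
    simp only [dp]
    rw [dot_ep]
    simp only [cp]
    have := muK_le_one K
    linarith

end Pool.Y644.SE
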