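import Pool.Agent.Y644.SE.Pad

/-! The long steepest-edge path in the padded program is stable under small perturbations. -/

set_option autoImplicit false
set_option linter.unusedSectionVars false
set_option linter.unusedSimpArgs false

namespace Pool.Y644.SE

open Pool.H836R3.SE

variable {J Z : Type} [Fintype J] [DecidableEq J] [Fintype Z] [DecidableEq Z]

theorem pad_path (K : ℕ) {N' : Rx K J Z → Kx K J → ℝ} {b' : Rx K J Z → ℝ}
    {c' : Kx K J → ℝ} {ε : ℝ} (hε : 0 ≤ ε)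
    (hN : ∀ q l, |N' q l - Np K J Z q l| ≤ ε) (hb : ∀ q, |b' q - bp K J Z q| ≤ ε)
    (hc : ∀ l, |c' l - cp K J l| ≤ ε)
    (hsm : 600 * ((Fintype.card (Kx K J) : ℝ) ^ 6 * RK K ^ 5 * ε) ≤ muK K) :
    ∃ L, 2 ^ K < L ∧ HasPath N' b' c' (zp K J) L := by
  have hne : Nonempty (Kx K J) := ⟨Sum.inl (Sum.inr 0)⟩
  have hR : 1 ≤ RK K := by have := RK_ge K; linarith
  have hμ := muK_pos K
  have hμ1 : muK K ≤ 1 := by have := muK_le_one K; linarith
  have bN := Np_bound (J := J) (Z := Z) K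
  have bbb : ∀ q, |bp K J Z q| ≤ 2 := fun q => by
    obtain ⟨h1, h2⟩ := bp_bound (J := J) (Z := Z) K q
    rw [abs_of_nonneg h1]; exact h2
  have bc := cp_bound (J := J) K
  have hfarS : ∀ (χ : Pat) (x : Fin 4 → Bool), x 3 = false → ∀ j,
      tfS K χ x j ≠ (Sum.inr 3, true) := by
    intro χ x hx j hj
    unfold tfS at hj
    obtain ⟨h1, h2⟩ := Prod.ext_iff.1 hj
    simp only at h1 h2
    subst h1
    simp only [sS] at h2
    rw [hx] at h2
    exact absurd h2 (by simp)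
  have hgen : ∀ (χ : Pat) (x : Fin 4 → Bool), ∃ δ' t', x 0 = true → x 3 = false →
      (Exact N' b' (tfp K J Z (tfS K χ x)) t' δ' ∧
      (∀ j l, |δ' j l - dp K J (dS K χ x) j l| ≤
        2 * ((Fintype.card (Kx K J) : ℝ) ^ 3 * RK K ^ 2 * ε))) := by
    intro χ x
    by_cases h : x 0 = true ∧ x 3 = false
    · obtain ⟨δ', t', h1, h2, -⟩ := robust_vertex
        (VBase_pad (J := J) (Z := Z) K (vbase_S K χ x h.1 h.2) hR hμ1 (hfarS χ x h.2))
        hne hR hμ hμ1 bN bbb hε hN hb hsm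
      exact ⟨δ', t', fun _ _ => ⟨h1, h2⟩⟩
    · exact ⟨fun _ _ => 0, fun _ => 0, fun h1 h2 => absurd ⟨h1, h2⟩ h⟩
  choose δf tf hf using hgen
  have hV0 := VBase_pad (J := J) (Z := Z) K (vbase_0 K) hR hμ1 (by
    intro j hj
    exact absurd (Prod.ext_iff.1 hj).2 (by simp))
  obtain ⟨δ0, t0, hE0, hδ0, -⟩ := robust_vertex hV0 hne hR hμ hμ1 bN bbb hε hN hb hsm
  have g0 := good_pad (J := J) K (good0 K)
  have g1 := good_pad (J := J) K (good1 K)
  have g2 := good_pad (J := J) K (good2 K)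
  obtain ⟨a0, a0'⟩ := robust_gain (c' := c') hne hR hμ hμ1 hV0.bδ bc hε hc hδ0 hsm
    (Sum.inl (Sum.inr 0)) g0.1 g0.2
  have f1 := hf χ0 X1 (by decide) (by decide)
  have f2 := hf χ0 X2 (by decide) (by decide)
  have f3 : ∀ χ, _ := fun χ => hf χ X3 (by decide) (by decide)
  have hbd : ∀ (χ : Pat) (x : Fin 4 → Bool) (j l : Kx K J), |dp K J (dS K χ x) j l| ≤ RK K := by
    intro χ x j l
    rcases j with j | j
    · rcases l with l | l
      · exact dS_bound K χ x j l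
      · simp only [dp, tp, abs_zero]; linarith
    · simp only [dp]; split_ifs
      · simpa using hR
      · simp only [abs_zero]; linarith
  obtain ⟨a1, a1'⟩ := robust_gain (c' := c') hne hR hμ hμ1 (hbd χ0 X1) bc
    hε hc f1.2 hsm (Sum.inl (Sum.inr 1)) g1.1 g1.2
  obtain ⟨a2, a2'⟩ := robust_gain (c' := c') hne hR hμ hμ1 (hbd χ0 X2) bc
    hε hc f2.2 hsm (Sum.inl (Sum.inr 2)) g2.1 g2.2
  have S0 : SEStep N' b' c' t0 (tf χ0 X1) := by
    refine seStep_of_exact hE0 f1.1 (Sum.inl (Sum.inr 0)) ?_ ?_ a0 a0'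
    · intro j hj
      rcases j with (p | a) | j
      · simp [tfp, tfS, sS, χ0]
      · have : a ≠ 0 := fun e => hj (by rw [e])
        simp [tfp, tfS, sS, X1, this]
      · rfl
    · simp [tfp, tfS, sS, X1]
  have S1 : SEStep N' b' c' (tf χ0 X1) (tf χ0 X2) := by
    refine seStep_of_exact f1.1 f2.1 (Sum.inl (Sum.inr 1)) ?_ ?_ a1 a1'
    · intro j hj
      rcases j with (p | a) | j
      · simp [tfp, tfS, sS, χ0]
      · have : a ≠ 1 := fun e => hj (by rw [e])
        simp [tfp, tfS, sS, X1, X2, this]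
      · rfl
    · simp [tfp, tfS, sS, X1, X2]
  have S2 : SEStep N' b' c' (tf χ0 X2) (tf χ0 X3) := by
    refine seStep_of_exact f2.1 (f3 χ0).1 (Sum.inl (Sum.inr 2)) ?_ ?_ a2 a2'
    · intro j hj
      rcases j with (p | a) | j
      · simp [tfp, tfS, sS, χ0]
      · have h2 : a ≠ 2 := fun e => hj (by rw [e])
        rcases fin4 a with rfl | rfl | rfl | rfl
        · simp [tfp, tfS, sS, X2, X3]
        · simp [tfp, tfS, sS, X2, X3]
        · exact absurd rfl h2
        · simp [tfp, tfS, sS, X2, X3]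
      · rfl
    · simp [tfp, tfS, sS, X2, X3]
  have SP : ∀ χ χ', StepP K 1 χ χ' → SEStep N' b' c' (tf χ X3) (tf χ' X3) := by
    intro χ χ' h
    obtain ⟨p, he, hg⟩ := good3 K χ χ' h
    have hg' := good_pad (J := J) K hg
    obtain ⟨a3, a3'⟩ := robust_gain (c' := c') hne hR hμ hμ1 (hbd χ X3) bc
      hε hc (f3 χ).2 hsm (Sum.inl (Sum.inl p)) hg'.1 hg'.2
    refine seStep_of_exact (f3 χ).1 (f3 χ').1 (Sum.inl (Sum.inl p)) ?_ ?_ a3 a3'
    · intro j hj
      rcases j with (q | a) | j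
      · have hq : q ≠ p := fun e => hj (by rw [e])
        have : ¬ ((q.1 : ℕ) = (p.1 : ℕ) ∧ q.2 = p.2) := fun ⟨h1, h2⟩ =>
          hq (Prod.ext (Fin.ext h1) h2)
        simp only [tfp, tfS, sS, he, Pool.H836R3.SE.flip, this, if_false]
      · simp [tfp, tfS, sS]
      · rfl
    · simp only [tfp, tfS, sS, he, Pool.H836R3.SE.flip]
      simp
  obtain ⟨L, χ', hL, hP, -, -⟩ := (paths K).1 χ0 (fun _ _ _ => rfl)
  have hP' := hP.map (r' := SEStep N' b' c') (fun χ => tf χ X3) SP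
  have hall := PathN.cons S0 (PathN.cons S1 (PathN.cons S2 hP'))
  obtain ⟨v, hv0, hv⟩ := hall.seq
  refine ⟨L + 1 + 1 + 1, by omega, v, ?_, hv⟩
  rw [hv0]
  refine isStart_of_exact hE0 (fun j => ?_)
  obtain ⟨z1, z2⟩ := zp_bound K j
  have hdp0 : ∀ j l : Kx K J, dp K J (fun j l => if l = j then 1 else 0) j l =
      if l = j then 1 else 0 := by
    intro j l
    rcases j with j | j
    · rcases l with l | l
      · simp [dp, tp]
      · simp [dp, tp]
    · rfl
  have hδ0' : ∀ j l, |δ0 j l - (if l = j then 1 else 0)| ≤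
      2 * ((Fintype.card (Kx K J) : ℝ) ^ 3 * RK K ^ 2 * ε) := by
    intro j l
    have := hδ0 j l
    rw [hdp0] at this
    exact this
  have e1 : dot (zp K J) (δ0 j) = zp K J j +
      dot (zp K J) (fun l => δ0 j l - if l = j then 1 else 0) := by
    have : (fun l => δ0 j l - if l = j then (1:ℝ) else 0) =
      δ0 j - fun l => if l = j then (1:ℝ) else 0 := rfl
    rw [this, dot_sub, dot_ep]; ring
  have e2 := abs_dot_le (zp K J) (fun l => δ0 j l - if l = j then 1 else 0) 10 _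
    (fun l => (zp_bound K l).2) (fun l => hδ0' j l)
  have hn1 : (1:ℝ) ≤ Fintype.card (Kx K J) := by exact_mod_cast Fintype.card_pos
  set n : ℝ := (Fintype.card (Kx K J) : ℝ)
  have e3 : n * (10 * (2 * (n ^ 3 * RK K ^ 2 * ε))) = 20 * (n ^ 4 * RK K ^ 2 * ε) := by ring
  rw [e3] at e2
  have e4 : n ^ 4 * RK K ^ 2 * ε ≤ n ^ 6 * RK K ^ 5 * ε := by
    have h1 := pow_le_pow_right₀ hn1 (show 4 ≤ 6 by norm_num)
    have h2 := pow_le_pow_right₀ hR (show 2 ≤ 5 by norm_num)
    gcongr <;> norm_num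
  rw [e1]
  have := (abs_le.1 e2).2
  linarith

end Pool.Y644.SE
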